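import Pool.Agent.H74.IA.Main

/-!
# The vanishing of local cohomology of Kähler forms, in the form used in the final statement
-/

namespace Pool.Agent.H74.IA

universe u v

/-- The degree `n` part of the local cohomology of the graded module `M` with support in the ideal
generated by the `x i` vanishes in all cohomological degrees: every cocycle of degree `n` of the
Koszul complex of `M` for some powers `(x i) ^ t` becomes a coboundary in the Koszul complex for the
powers `(x i) ^ (t + s)` for some `s`.  Here `w i` is the degree of `x i`, and `ℳ j y` says that the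
element `y` of `M` is homogeneous of degree `j`. -/
def LocVan {R M ι : Type*} [CommRing R] [AddCommGroup M] [Module R M] [LinearOrder ι]
    (x : ι → R) (w : ι → ℕ) (ℳ : ℕ → M → Prop) (n : ℕ) : Prop :=
  ∀ (t : ℕ) (c : Finset ι → M), (∀ I, ℳ (n + t * ∑ i ∈ I, w i) (c I)) → kd x t c = 0 →
    ∃ (s : ℕ) (b : Finset ι → M), (∀ I, ℳ (n + (t + s) * ∑ i ∈ I, w i) (b I)) ∧
      kd x (t + s) b = tr x s c

/-- The Kähler `p`-forms of degree `n` on a `k`-algebra `R` with homogeneous parts `𝒜 i`: sums of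
forms `a db_1 ∧ ... ∧ db_p` with `a, b_1, ..., b_p` homogeneous of degrees with sum `n`. -/
inductive IsForm {k : Type u} {R : Type v} [CommRing k] [CommRing R] [Algebra k R]
    (𝒜 : ℕ → Submodule k R) (p n : ℕ) : ⋀[R]^p Ω[R⁄k] → Prop
  | form (a : R) (b : Fin p → R) (i : ℕ) (e : Fin p → ℕ) (ha : a ∈ 𝒜 i)
      (hb : ∀ j, b j ∈ 𝒜 (e j)) (hn : i + ∑ j, e j = n) :
      IsForm 𝒜 p n (a • exteriorPower.ιMulti R p (fun j => KaehlerDifferential.D k R (b j)))
  | add (ω ω' : ⋀[R]^p Ω[R⁄k]) (h : IsForm 𝒜 p n ω) (h' : IsForm 𝒜 p n ω') :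
      IsForm 𝒜 p n (ω + ω')

/-- The Kähler `p`-forms of the graded `k`-algebra `R` form a torsion-free module, and the local
cohomology of this module with support in the ideal generated by the `x i` vanishes in all positive
degrees. -/
structure GoodForms {k : Type u} {R : Type v} [CommRing k] [CommRing R] [Algebra k R]
    (𝒜 : ℕ → Submodule k R) {ι : Type*} [LinearOrder ι] (x : ι → R) (w : ι → ℕ) (p : ℕ) : Prop where
  torsionFree (a : R) (ω : ⋀[R]^p Ω[R⁄k]) (h : a • ω = 0) : a = 0 ∨ ω = 0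
  vanish (n : ℕ) (hn : 0 < n) : LocVan x w (IsForm 𝒜 p) n

section

variable {k : Type u} {R : Type v} [CommRing k] [CommRing R] [Algebra k R]
  (𝒜 : ℕ → Submodule k R)

theorem IsForm.neg {p n : ℕ} {ω : ⋀[R]^p Ω[R⁄k]} (h : IsForm 𝒜 p n ω) : IsForm 𝒜 p n (-ω) := by
  induction h with
  | form a b i e ha hb hn =>
    have h := IsForm.form (-a) b i e (neg_mem ha) hb hn
    have e1 : (-a) • exteriorPower.ιMulti R p (fun j => KaehlerDifferential.D k R (b j)) =
      -(a • exteriorPower.ιMulti R p (fun j => KaehlerDifferential.D k R (b j))) :=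
      neg_smul (R := R) (M := ⋀[R]^p Ω[R⁄k]) a _
    rw [e1] at h
    exact h
  | add ω ω' _ _ h h' => rw [neg_add]; exact IsForm.add _ _ h h'

theorem isForm_iff (h0 : ∀ i, (0 : R) ∈ 𝒜 i) {p n : ℕ} (ω : ⋀[R]^p Ω[R⁄k]) :
    IsForm 𝒜 p n ω ↔ ω ∈ formDeg 𝒜 p n := by
  constructor
  · intro h
    induction h with
    | form a b i e ha hb hn =>
      exact AddSubgroup.subset_closure ⟨a, b, i, e, ha, hb, hn, rfl⟩
    | add ω ω' _ _ h h' => exact add_mem h h'
  · intro h
    unfold formDeg at h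
    induction h using AddSubgroup.closure_induction with
    | mem x hx =>
      obtain ⟨a, b, i, e, ha, hb, hn, rfl⟩ := hx
      exact IsForm.form a b i e ha hb hn
    | zero =>
      have h := IsForm.form (𝒜 := 𝒜) (p := p) (n := n) 0 (fun _ => 0) n (fun _ => 0) (h0 n)
        (fun _ => h0 0) (by simp)
      have e1 : (0 : R) • exteriorPower.ιMulti R p (fun _ => KaehlerDifferential.D k R 0) = 0 :=
        zero_smul (M₀ := R) (A := ⋀[R]^p Ω[R⁄k]) _
      rw [e1] at h
      exact h
    | add x y _ _ hx hy => exact IsForm.add x y hx hy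
    | neg x _ hx => exact hx.neg

theorem locVan_iff {p n : ℕ} {ι : Type*} [LinearOrder ι] (x : ι → R) (w : ι → ℕ) :
    LocVan x w (IsForm 𝒜 p) n ↔ Van x w (formDeg 𝒜 p) n := by
  unfold LocVan Van
  simp only [isForm_iff 𝒜 (fun i => zero_mem (𝒜 i))]

end

theorem goodForms_of_quotient {k : Type*} [Field k] [CharZero k] {R : Type*} [CommRing R]
    [Algebra k R] [Algebra.EssFiniteType k R] (𝒜 : ℕ → Submodule k R) [GradedAlgebra 𝒜]
    {d : ℕ} (hd : 0 < d) {t : R} (htd : t ∈ 𝒜 d) (ht : t ∈ nonZeroDivisors R)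
    [IsDomain (R ⧸ Ideal.span {t})]
    {ι : Type*} [Fintype ι] [LinearOrder ι] {x : ι → R} {w : ι → ℕ} (hx : ∀ i, x i ∈ 𝒜 (w i))
    (htx : t ∈ (Ideal.span (Set.range x)).radical) (m : ℕ)
    (h : ∀ p ≤ m, GoodForms (quotDeg 𝒜 (Ideal.span {t}))
      (fun i => Ideal.Quotient.mk (Ideal.span {t}) (x i)) w p) :
    ∀ p ≤ m, GoodForms 𝒜 x w p := by
  intro p hp
  have h' := graded_main 𝒜 hd htd ht hx htx m ?_
    (fun p hp n hn => (locVan_iff _ _ _).1 ((h p hp).vanish n hn)) p hp
  · exact ⟨h'.1, fun n hn => (locVan_iff _ _ _).2 (h'.2 n hn)⟩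
  intro q hq a ha ω hω
  have h1 : (Ideal.Quotient.mk (Ideal.span {t}) a) • ω = a • ω :=
    algebraMap_smul (R ⧸ Ideal.span {t}) a ω
  rcases (h q hq).torsionFree _ ω (h1.trans hω) with h | h
  · exact absurd (Ideal.Quotient.eq_zero_iff_mem.1 h) ha
  · exact h

end Pool.Agent.H74.IA
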