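import Pool.Agent.H74.IA.Phi

/-!
# Differential forms of degree `n`
-/

namespace Pool.Agent.H74.IA

open Polynomial

universe u v

/-- The Kähler `p`-forms of degree `n` on a `k`-algebra `R` with homogeneous parts `𝒜 i`: sums of
forms `a db_1 ∧ ... ∧ db_p` with `a, b_1, ..., b_p` homogeneous of degrees with sum `n`. -/
noncomputable def formDeg {k : Type u} {R : Type v} [CommRing k] [CommRing R] [Algebra k R]
    (𝒜 : ℕ → Submodule k R) (p n : ℕ) : AddSubgroup (⋀[R]^p Ω[R⁄k]) :=
  AddSubgroup.closure {ω | ∃ (a : R) (b : Fin p → R) (i : ℕ) (e : Fin p → ℕ), a ∈ 𝒜 i ∧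
    (∀ j, b j ∈ 𝒜 (e j)) ∧ i + ∑ j, e j = n ∧
    ω = a • exteriorPower.ιMulti R p (fun j => KaehlerDifferential.D k R (b j))}

variable {k : Type u} {R : Type v} [CommRing k] [CommRing R] [Algebra k R]

section

variable (𝒜 : ℕ → Submodule k R)

theorem smul_mem_formDeg (hmul : ∀ i j a b, a ∈ 𝒜 i → b ∈ 𝒜 j → a * b ∈ 𝒜 (i + j)) {p n i : ℕ}
    {r : R} (hr : r ∈ 𝒜 i) {ω : ⋀[R]^p Ω[R⁄k]} (hω : ω ∈ formDeg 𝒜 p n) :
    r • ω ∈ formDeg 𝒜 p (n + i) := by
  unfold formDeg at hω ⊢
  induction hω using AddSubgroup.closure_induction with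
  | mem x hx =>
    obtain ⟨a, b, i', e, ha, hb, hn, rfl⟩ := hx
    apply AddSubgroup.subset_closure
    refine ⟨r * a, b, i + i', e, hmul _ _ _ _ hr ha, hb, by omega, ?_⟩
    rw [mul_smul]
  | zero => rw [smul_zero]; exact zero_mem _
  | add x y _ _ hx hy => rw [smul_add]; exact add_mem hx hy
  | neg x _ hx => rw [smul_neg]; exact neg_mem hx

end

section graded

variable (𝒜 : ℕ → Submodule k R) [GradedAlgebra 𝒜]

theorem span_homogeneous :
    Submodule.span R {m : Ω[R⁄k] | ∃ (b : R) (i : ℕ), b ∈ 𝒜 i ∧ m = KaehlerDifferential.D k R b} =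
      ⊤ := by
  rw [eq_top_iff, ← KaehlerDifferential.span_range_derivation, Submodule.span_le]
  rintro _ ⟨r, rfl⟩
  induction r using DirectSum.Decomposition.inductionOn 𝒜 with
  | zero => rw [map_zero]; exact zero_mem _
  | @homogeneous i m => exact Submodule.subset_span ⟨m, i, m.2, rfl⟩
  | add a b ha hb => rw [map_add]; exact add_mem ha hb

theorem formDeg_iSup (p : ℕ) : ⨆ n, formDeg 𝒜 p n = ⊤ := by
  set X : AddSubgroup (⋀[R]^p Ω[R⁄k]) := ⨆ n, formDeg 𝒜 p n with hX
  have hsm : ∀ (r : R) (ω : ⋀[R]^p Ω[R⁄k]), ω ∈ X → r • ω ∈ X := by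
    intro r ω hω
    induction r using DirectSum.Decomposition.inductionOn 𝒜 with
    | zero => rw [zero_smul]; exact zero_mem _
    | @homogeneous i m =>
      refine AddSubgroup.iSup_induction (fun n => formDeg 𝒜 p n) (C := fun ω => (m : R) • ω ∈ X)
        hω ?_ ?_ ?_
      · intro n x hx
        exact AddSubgroup.mem_iSup_of_mem (n + i)
          (smul_mem_formDeg 𝒜 (fun _ _ _ _ h h' => SetLike.mul_mem_graded h h') m.2 hx)
      · simp only [smul_zero]; exact zero_mem _
      · intro x y hx hy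
        simp only [smul_add]
        exact add_mem hx hy
    | add a b ha hb => rw [add_smul]; exact add_mem ha hb
  rw [eq_top_iff]
  intro ω _
  have hω : ω ∈ Submodule.span R (exteriorPower.ιMulti R p '' {a | Set.range a ⊆
      {m : Ω[R⁄k] | ∃ (b : R) (i : ℕ), b ∈ 𝒜 i ∧ m = KaehlerDifferential.D k R b}}) := by
    rw [exteriorPower.ιMulti_span_of_span R p _ (span_homogeneous 𝒜)]; trivial
  induction hω using Submodule.span_induction with
  | mem x hx =>
    obtain ⟨v, hv, rfl⟩ := hx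
    choose b e hb hbv using fun j => hv (Set.mem_range_self j)
    refine AddSubgroup.mem_iSup_of_mem (0 + ∑ j, e j) (AddSubgroup.subset_closure
      ⟨1, b, 0, e, SetLike.one_mem_graded 𝒜, hb, rfl, ?_⟩)
    rw [one_smul]
    congr 1
    funext j
    exact hbv j
  | zero => exact zero_mem _
  | add x y _ _ hx hy => exact add_mem (hx trivial) (hy trivial)
  | smul a x _ hx => exact hsm a x (hx trivial)

theorem Phi_formDeg {p n : ℕ} {ω : ⋀[R]^p Ω[R⁄k]} (hω : ω ∈ formDeg 𝒜 p n) :
    Phi 𝒜 (ω : Lam k R) = (show Tw 𝒜 from monomial n (ω : Lam k R)) := by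
  unfold formDeg at hω
  induction hω using AddSubgroup.closure_induction with
  | mem x hx =>
    obtain ⟨a, b, i, e, ha, hb, hn, rfl⟩ := hx
    have := Phi_homogeneous 𝒜 p a b i e ha hb
    rw [hn] at this
    exact this
  | zero =>
    rw [ZeroMemClass.coe_zero, map_zero]
    exact ((monomial n : Lam k R →ₗ[Lam k R] (Lam k R)[X]).map_zero).symm
  | add x y _ _ hx hy =>
    rw [Submodule.coe_add, map_add, hx, hy]
    exact ((monomial n : Lam k R →ₗ[Lam k R] (Lam k R)[X]).map_add _ _).symm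
  | neg x _ hx =>
    rw [NegMemClass.coe_neg, map_neg, hx]
    exact ((monomial n : Lam k R →ₗ[Lam k R] (Lam k R)[X]).map_neg _).symm

theorem formDeg_isInternal (p : ℕ) : DirectSum.IsInternal (formDeg 𝒜 p) := by
  constructor
  · rw [injective_iff_map_eq_zero]
    intro x hx
    have key : ∀ (x : DirectSum ℕ fun n => formDeg 𝒜 p n) (n : ℕ),
        (show (Lam k R)[X] from Phi 𝒜
          ((DirectSum.coeAddMonoidHom (formDeg 𝒜 p) x : ⋀[R]^p Ω[R⁄k]) : Lam k R)).coeff n =
          ((x n : ⋀[R]^p Ω[R⁄k]) : Lam k R) := by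
      intro x n
      induction x using DirectSum.induction_on with
      | zero =>
        rw [map_zero, ZeroMemClass.coe_zero, map_zero]
        exact coeff_zero n
      | of i y =>
        rw [DirectSum.coeAddMonoidHom_of, Phi_formDeg 𝒜 y.2]
        change (monomial i ((y : ⋀[R]^p Ω[R⁄k]) : Lam k R) : (Lam k R)[X]).coeff n = _
        rw [coeff_monomial]
        by_cases h : i = n
        · subst h
          rw [if_pos rfl, DirectSum.of_eq_same]
        · rw [if_neg h, DirectSum.of_eq_of_ne _ _ _ (Ne.symm h)]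
          rfl
      | add x y hx hy =>
        rw [map_add, Submodule.coe_add, map_add]
        have h2 := (coeff_add (show (Lam k R)[X] from Phi 𝒜
          ((DirectSum.coeAddMonoidHom (formDeg 𝒜 p) x : ⋀[R]^p Ω[R⁄k]) : Lam k R))
          (show (Lam k R)[X] from Phi 𝒜
          ((DirectSum.coeAddMonoidHom (formDeg 𝒜 p) y : ⋀[R]^p Ω[R⁄k]) : Lam k R)) n)
        refine h2.trans ?_
        rw [hx, hy, DirectSum.add_apply, AddSubgroup.coe_add, Submodule.coe_add]
    refine DFinsupp.ext fun n => ?_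
    have h1 := key x n
    rw [hx, ZeroMemClass.coe_zero, map_zero] at h1
    have h2 : (0 : Lam k R) = ((x n : ⋀[R]^p Ω[R⁄k]) : Lam k R) := (coeff_zero n).symm.trans h1
    apply Subtype.ext
    apply Subtype.ext
    rw [← h2]
    rfl
  · intro ω
    have hω : ω ∈ ⨆ n, formDeg 𝒜 p n := by rw [formDeg_iSup]; trivial
    refine AddSubgroup.iSup_induction (fun n => formDeg 𝒜 p n)
      (C := fun ω => ∃ x, DirectSum.coeAddMonoidHom (formDeg 𝒜 p) x = ω) hω ?_ ?_ ?_
    · intro n x hx
      exact ⟨DirectSum.of (fun n => formDeg 𝒜 p n) n ⟨x, hx⟩, DirectSum.coeAddMonoidHom_of _ _ _⟩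
    · exact ⟨0, map_zero _⟩
    · rintro x y ⟨x', rfl⟩ ⟨y', rfl⟩
      exact ⟨x' + y', map_add _ _ _⟩

end graded

/-- Components with respect to an internal direct sum decomposition. -/
theorem exists_proj {M : Type*} [AddCommGroup M] (ℳ : ℕ → AddSubgroup M)
    (h : DirectSum.IsInternal ℳ) : ∃ π : ℕ → M →+ M, (∀ n m, π n m ∈ ℳ n) ∧
      (∀ n m, m ∈ ℳ n → π n m = m) ∧ (∀ n j m, m ∈ ℳ n → j ≠ n → π j m = 0) ∧
      (∀ m, (∀ n, π n m = 0) → m = 0) ∧ (∀ m, ∃ s : Finset ℕ, m = ∑ n ∈ s, π n m) := by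
  classical
  let _ : DirectSum.Decomposition ℳ := h.chooseDecomposition
  refine ⟨fun n => ((ℳ n).subtype.comp (DFinsupp.evalAddMonoidHom n :
    (DirectSum ℕ fun n => ℳ n) →+ ℳ n)).comp
    (DirectSum.decomposeAddEquiv ℳ : M →+ DirectSum ℕ fun n => ℳ n), ?_, ?_, ?_, ?_, ?_⟩
  · intro n m
    exact (DirectSum.decompose ℳ m n).2
  · intro n m hm
    exact DirectSum.decompose_of_mem_same ℳ hm
  · intro n j m hm hj
    exact DirectSum.decompose_of_mem_ne ℳ hm (Ne.symm hj)
  · intro m hm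
    have h1 : DirectSum.decompose ℳ m = 0 := by
      refine DFinsupp.ext fun n => Subtype.ext (hm n)
    have h2 := congrArg (DirectSum.decompose ℳ).symm h1
    rw [Equiv.symm_apply_apply, DirectSum.decompose_symm_zero] at h2
    exact h2
  · intro m
    exact ⟨(DirectSum.decompose ℳ m).support, (DirectSum.sum_support_decompose ℳ m).symm⟩

/-- Additive maps are determined by the homogeneous elements. -/
theorem addHom_ext_of_surj {M P : Type*} [AddCommGroup M] [AddCommGroup P]
    (ℳ : ℕ → AddSubgroup M) (h : Function.Surjective (DirectSum.coeAddMonoidHom ℳ))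
    (f g : M →+ P) (hfg : ∀ n m, m ∈ ℳ n → f m = g m) (m : M) : f m = g m := by
  obtain ⟨x, rfl⟩ := h m
  induction x using DirectSum.induction_on with
  | zero => rw [map_zero, map_zero, map_zero]
  | of i y => rw [DirectSum.coeAddMonoidHom_of]; exact hfg i _ y.2
  | add x y hx hy => rw [map_add, map_add, map_add, hx, hy]

end Pool.Agent.H74.IA
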