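import Pool.Agent.H74.IA.Koszul

/-!
# Two exact sequence arguments for the vanishing of graded local cohomology
-/

namespace Pool.Agent.H74.IA

open Finset

variable {R M M' M'' ι : Type*} [CommRing R] [AddCommGroup M] [Module R M] [AddCommGroup M']
  [Module R M'] [AddCommGroup M''] [Module R M''] [LinearOrder ι]

theorem prod_smul_mem {x : ι → R} {w : ι → ℕ} {ℳ : ℕ → AddSubgroup M}
    (hx : ∀ i k m, m ∈ ℳ k → x i • m ∈ ℳ (k + w i)) (I : Finset ι) (k : ℕ) (m : M)
    (hm : m ∈ ℳ k) : (∏ i ∈ I, x i) • m ∈ ℳ (k + ∑ i ∈ I, w i) := by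
  classical
  induction I using Finset.induction_on generalizing k m with
  | empty => simpa using hm
  | insert a s ha ih =>
    rw [prod_insert ha, sum_insert ha, mul_smul]
    have := hx a _ _ (ih k m hm)
    rw [show k + (w a + ∑ i ∈ s, w i) = k + ∑ i ∈ s, w i + w a by ring]
    exact this

theorem prod_pow_smul_mem {x : ι → R} {w : ι → ℕ} {ℳ : ℕ → AddSubgroup M}
    (hx : ∀ i k m, m ∈ ℳ k → x i • m ∈ ℳ (k + w i)) (I : Finset ι) (s k : ℕ) (m : M)
    (hm : m ∈ ℳ k) : (∏ i ∈ I, x i) ^ s • m ∈ ℳ (k + s * ∑ i ∈ I, w i) := by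
  induction s with
  | zero => simpa using hm
  | succ s ih =>
    rw [pow_succ', mul_smul]
    have := prod_smul_mem hx I _ _ ih
    rw [show k + (s + 1) * ∑ i ∈ I, w i = k + s * ∑ i ∈ I, w i + ∑ i ∈ I, w i by ring]
    exact this

theorem tr_mem {x : ι → R} {w : ι → ℕ} {ℳ : ℕ → AddSubgroup M}
    (hx : ∀ i k m, m ∈ ℳ k → x i • m ∈ ℳ (k + w i)) {n t : ℕ} (s : ℕ) {c : Finset ι → M}
    (hc : ∀ I, c I ∈ ℳ (n + t * ∑ i ∈ I, w i)) (I : Finset ι) :
    tr x s c I ∈ ℳ (n + (t + s) * ∑ i ∈ I, w i) := by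
  have := prod_pow_smul_mem hx I s _ _ (hc I)
  rw [show n + (t + s) * ∑ i ∈ I, w i = n + t * ∑ i ∈ I, w i + s * ∑ i ∈ I, w i by ring]
  exact this

theorem kd_mem {x : ι → R} {w : ι → ℕ} {ℳ : ℕ → AddSubgroup M}
    (hx : ∀ i k m, m ∈ ℳ k → x i • m ∈ ℳ (k + w i)) {n t : ℕ} {c : Finset ι → M}
    (hc : ∀ I, c I ∈ ℳ (n + t * ∑ i ∈ I, w i)) (I : Finset ι) :
    kd x t c I ∈ ℳ (n + t * ∑ i ∈ I, w i) := by
  unfold kd
  refine sum_mem fun i hi => ?_
  refine AddSubgroup.zsmul_mem _ ?_ _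
  have h1 : ∀ (t' k : ℕ) (m : M), m ∈ ℳ k → x i ^ t' • m ∈ ℳ (k + t' * w i) := by
    intro t' k m hm
    have := prod_pow_smul_mem hx {i} t' k m hm
    simpa using this
  have h2 := h1 t _ _ (hc (I.erase i))
  rw [show n + t * ∑ i ∈ I, w i = n + t * ∑ i ∈ I.erase i, w i + t * w i by
    rw [← sum_erase_add _ _ hi]; ring]
  exact h2

/-- Vanishing for the two outer terms of a short exact sequence gives it for the middle term. -/
theorem Van.extension {x : ι → R} {w : ι → ℕ} {ℳ' : ℕ → AddSubgroup M'} {ℳ : ℕ → AddSubgroup M}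
    {ℳ'' : ℕ → AddSubgroup M''} (g : M' →ₗ[R] M) (h : M →ₗ[R] M'')
    (hg : Function.Injective g) (hex : ∀ m, h m = 0 → ∃ m', g m' = m) (e : ℕ)
    (hg1 : ∀ k m', m' ∈ ℳ' k → g m' ∈ ℳ (k + e))
    (hg2 : ∀ k m', g m' ∈ ℳ (k + e) → m' ∈ ℳ' k)
    (hh2 : ∀ k m'', m'' ∈ ℳ'' k → ∃ m ∈ ℳ k, h m = m'')
    (hh1 : ∀ k m, m ∈ ℳ k → h m ∈ ℳ'' k)
    (hx : ∀ i k m, m ∈ ℳ k → x i • m ∈ ℳ (k + w i)) {n : ℕ}
    (h' : Van x w ℳ' n) (h'' : Van x w ℳ'' (n + e)) : Van x w ℳ (n + e) := by
  intro t c hc hc0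
  obtain ⟨s, b'', hb'', hb0''⟩ := h'' t (fun I => h (c I)) (fun I => hh1 _ _ (hc I))
    (by rw [kd_map, hc0]; funext I; simp)
  choose b hb hhb using fun I => hh2 _ _ (hb'' I)
  -- the difference comes from the left term
  have hu : ∀ I, h (tr x s c I - kd x (t + s) b I) = 0 := by
    intro I
    rw [map_sub]
    have h1 := congrFun hb0'' I
    have h2 := congrFun (tr_map x s h c) I
    have h3 := congrFun (kd_map x (t + s) h b) I
    have h4 : (fun I => h (b I)) = b'' := funext hhb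
    rw [h4] at h3
    rw [← h3, h1, ← h2, sub_self]
  choose c' hc' using fun I => hex _ (hu I)
  have hmem : ∀ I, tr x s c I - kd x (t + s) b I ∈ ℳ (n + e + (t + s) * ∑ i ∈ I, w i) :=
    fun I => sub_mem (tr_mem hx s hc I) (kd_mem hx hb I)
  have hc'mem : ∀ I, c' I ∈ ℳ' (n + (t + s) * ∑ i ∈ I, w i) := by
    intro I
    apply hg2
    rw [hc', show n + (t + s) * ∑ i ∈ I, w i + e = n + e + (t + s) * ∑ i ∈ I, w i by ring]
    exact hmem I
  have hgc : (fun I => g (c' I)) = tr x s c - kd x (t + s) b := funext hc'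
  have hc'0 : kd x (t + s) c' = 0 := by
    funext I
    apply hg
    have h1 := congrFun (kd_map x (t + s) g c') I
    rw [hgc, kd_sub, kd_kd, kd_tr, hc0, tr_zero, sub_zero] at h1
    rw [← h1]
    simp
  obtain ⟨s', b', hb', hb0'⟩ := h' (t + s) c' hc'mem hc'0
  refine ⟨s + s', fun I => tr x s' b I + g (b' I), fun I => ?_, ?_⟩
  · have h1 := tr_mem hx s' hb I
    have h2 := hg1 _ _ (hb' I)
    rw [show n + (t + s + s') * ∑ i ∈ I, w i + e = n + e + (t + s + s') * ∑ i ∈ I, w i by
      ring] at h2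
    rw [show t + (s + s') = t + s + s' by ring]
    exact add_mem h1 h2
  · rw [show t + (s + s') = t + s + s' by ring]
    have h1 : (fun I => tr x s' b I + g (b' I)) = tr x s' b + fun I => g (b' I) := rfl
    rw [h1, kd_add, kd_tr, kd_map, hb0']
    have h2 : (fun I => g (tr x s' c' I)) = tr x s' (fun I => g (c' I)) := (tr_map x s' g c').symm
    rw [h2, hgc, tr_sub, tr_tr]
    abel

/-- If `f` is a nonzerodivisor on `M`, homogeneous of degree `d`, and a power of `f` lies in the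
ideal generated by any given powers of the `x i`, then vanishing for `M / f M` in the degrees
larger than `d` gives vanishing for `M` in all positive degrees. -/
theorem Van.of_quotient {x : ι → R} {w : ι → ℕ} {ℳ : ℕ → AddSubgroup M}
    {ℳ'' : ℕ → AddSubgroup M''} [Fintype ι] (f : R) (d : ℕ) (q : M →ₗ[R] M'')
    (hf : ∀ m : M, f • m = 0 → m = 0) (hqf : ∀ m, q (f • m) = 0)
    (hq : ∀ m, q m = 0 → ∃ m', f • m' = m)
    (hf2 : ∀ k m, f • m ∈ ℳ (k + d) → m ∈ ℳ k)
    (hq2 : ∀ k m'', m'' ∈ ℳ'' k → ∃ m ∈ ℳ k, q m = m'')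
    (hq1 : ∀ k m, m ∈ ℳ k → q m ∈ ℳ'' k)
    (hx : ∀ i k m, m ∈ ℳ k → x i • m ∈ ℳ (k + w i))
    (htors : ∀ t : ℕ, ∃ (N : ℕ) (a : ι → R), f ^ N = ∑ i, a i * x i ^ t ∧
      ∀ i k m, m ∈ ℳ (k + t * w i) → a i • m ∈ ℳ (k + N * d))
    (h'' : ∀ n, 0 < n → Van x w ℳ'' (n + d)) : ∀ n, 0 < n → Van x w ℳ n := by
  intro n hn t c hc hc0
  obtain ⟨N, a, hN, ha⟩ := htors t
  have key : ∀ j : ℕ, j ≤ N → ∃ (s : ℕ) (b : Finset ι → M),
      (∀ I, b I ∈ ℳ (n + (N - j) * d + (t + s) * ∑ i ∈ I, w i)) ∧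
      kd x (t + s) b = fun I => f ^ (N - j) • tr x s c I := by
    intro j
    induction j with
    | zero =>
      intro _
      refine ⟨0, ∑ i, fun I => a i • ct i c I, fun I => ?_, ?_⟩
      · rw [Finset.sum_apply]
        refine sum_mem fun i _ => ?_
        by_cases hi : i ∈ I
        · simp only [ct, hi, if_true, smul_zero]
          exact zero_mem _
        · simp only [ct, hi, if_false]
          have h1 := hc (insert i I)
          rw [sum_insert hi, show n + t * (w i + ∑ i ∈ I, w i) =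
            (n + t * ∑ i ∈ I, w i) + t * w i by ring] at h1
          have h2 := ha i _ _ (AddSubgroup.zsmul_mem _ h1 (sg i I))
          rw [show n + (N - 0) * d + (t + 0) * ∑ i ∈ I, w i = n + t * ∑ i ∈ I, w i + N * d by
            rw [Nat.sub_zero]; ring]
          exact h2
      · rw [kd_sum]
        funext I
        rw [Finset.sum_apply]
        simp only [Nat.sub_zero, add_zero, tr, pow_zero, one_smul]
        rw [hN, sum_smul]
        refine sum_congr rfl fun i _ => ?_
        rw [kd_smul, kd_ct x t i c hc0, mul_smul]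
    | succ j ih =>
      intro hj
      obtain ⟨s, b, hb, hb0⟩ := ih (by omega)
      have hNj : N - j = (N - (j + 1)) + 1 := by omega
      set r := N - (j + 1) with hr
      rw [hNj] at hb hb0
      have hb' : ∀ I, b I ∈ ℳ (n + r * d + d + (t + s) * ∑ i ∈ I, w i) := by
        intro I
        have := hb I
        rwa [show n + (r + 1) * d + (t + s) * ∑ i ∈ I, w i =
          n + r * d + d + (t + s) * ∑ i ∈ I, w i by ring] at this
      have hz : kd x (t + s) (fun I => q (b I)) = 0 := by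
        rw [kd_map, hb0]
        funext I
        simp only [Pi.zero_apply]
        rw [pow_succ', mul_smul, hqf]
      obtain ⟨s', g'', hg'', hg0⟩ := h'' (n + r * d) (by omega) (t + s) (fun I => q (b I))
        (fun I => hq1 _ _ (hb' I)) hz
      choose g hg hqg using fun I => hq2 _ _ (hg'' I)
      have hu : ∀ I, q (tr x s' b I - kd x (t + s + s') g I) = 0 := by
        intro I
        rw [map_sub]
        have h1 := congrFun hg0 I
        have h2 := congrFun (tr_map x s' q b) I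
        have h3 := congrFun (kd_map x (t + s + s') q g) I
        have h4 : (fun I => q (g I)) = g'' := funext hqg
        rw [h4] at h3
        rw [← h3, h1, ← h2, sub_self]
      choose h hh using fun I => hq _ (hu I)
      refine ⟨s + s', h, fun I => ?_, ?_⟩
      · apply hf2
        rw [hh]
        have h1 := tr_mem hx s' hb' I
        have h2 := kd_mem hx hg I
        have h3 := sub_mem h1 h2
        rwa [show n + r * d + d + (t + s + s') * ∑ i ∈ I, w i =
          n + r * d + (t + (s + s')) * ∑ i ∈ I, w i + d by ring] at h3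
      · have h1 : (fun I => f • h I) = tr x s' b - kd x (t + s + s') g := funext hh
        have h2 : kd x (t + s + s') (fun I => f • h I) =
            tr x s' (kd x (t + s) b) := by
          rw [h1, kd_sub, kd_kd, kd_tr, sub_zero]
        rw [kd_smul, hb0, tr_smul, tr_tr] at h2
        rw [show t + (s + s') = t + s + s' by ring]
        funext I
        have h3 := congrFun h2 I
        have h4 : f • (kd x (t + s + s') h I - f ^ r • tr x (s + s') c I) = 0 := by
          rw [smul_sub, h3, pow_succ', mul_smul, sub_self]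
        exact sub_eq_zero.1 (hf _ h4)
  obtain ⟨s, b, hb, hb0⟩ := key N le_rfl
  refine ⟨s, b, fun I => ?_, ?_⟩
  · have := hb I
    simpa using this
  · rw [hb0]
    funext I
    simp

end Pool.Agent.H74.IA
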