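import Pool.Agent.H74.IA.Seq
import Pool.Agent.H74.IA.Vanish

/-!
# Graded arguments
-/

open scoped TensorProduct

namespace Pool.Agent.H74.IA

open Pool.Agent.H71

universe u v

section ring

variable {k : Type u} [Field k] {A : Type v} [CommRing A] [Algebra k A]
variable (𝒜 : ℕ → Submodule k A) [GradedAlgebra 𝒜]

/-- Removing powers of a homogeneous element of positive degree. -/
theorem exists_pow_mul {d : ℕ} (hd : 0 < d) {t : A} (htd : t ∈ 𝒜 d) (a : A) (ha : a ≠ 0) :
    ∃ (n : ℕ) (a' : A), a = t ^ n * a' ∧ a' ∉ Ideal.span {t} := by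
  have hinf : ∀ a : A, (∀ n, a ∈ Ideal.span {t} ^ n) → a = 0 := by
    intro a ha
    have h0 : DirectSum.decompose 𝒜 a = 0 := by
      refine DFinsupp.ext fun j => Subtype.ext ?_
      obtain ⟨b, hb⟩ := Ideal.mem_span_singleton.1 (by
        have := ha (j + 1)
        rwa [Ideal.span_singleton_pow] at this)
      rw [hb]
      have h1 : t ^ (j + 1) ∈ 𝒜 ((j + 1) • d) := SetLike.pow_mem_graded _ htd
      rw [DirectSum.coe_decompose_mul_of_left_mem_of_not_le 𝒜 h1]
      · rfl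
      · rw [smul_eq_mul]
        nlinarith
    have h2 := congrArg (DirectSum.decompose 𝒜).symm h0
    rwa [Equiv.symm_apply_apply, DirectSum.decompose_symm_zero] at h2
  have h1 : ∃ n : ℕ, a ∉ Ideal.span {t} ^ n := by
    by_contra hcon
    push Not at hcon
    exact ha (hinf a hcon)
  classical
  have h2 := Nat.find_spec h1
  have h3 : Nat.find h1 ≠ 0 := by
    intro h
    rw [h] at h2
    apply h2
    simp
  obtain ⟨n, hn⟩ := Nat.exists_eq_succ_of_ne_zero h3
  have h4 : a ∈ Ideal.span {t} ^ n := by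
    by_contra hcon
    have := Nat.find_min' h1 hcon
    omega
  rw [Ideal.span_singleton_pow, Ideal.mem_span_singleton] at h4
  obtain ⟨a', rfl⟩ := h4
  refine ⟨n, a', rfl, fun h5 ↦ h2 ?_⟩
  rw [hn, Ideal.span_singleton_pow, Ideal.mem_span_singleton]
  obtain ⟨b, rfl⟩ := Ideal.mem_span_singleton.1 h5
  exact ⟨b, by rw [Nat.succ_eq_add_one, pow_succ]; ring⟩

theorem isDomain_of_graded {d : ℕ} (hd : 0 < d) {t : A} (htd : t ∈ 𝒜 d)
    (ht : t ∈ nonZeroDivisors A) [IsDomain (A ⧸ Ideal.span {t})] : IsDomain A := by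
  have hprime : (Ideal.span {t}).IsPrime := Ideal.Quotient.isDomain_iff_prime _ |>.1 inferInstance
  have hdec := exists_pow_mul 𝒜 hd htd
  have hnt : Nontrivial A := by
    rcases subsingleton_or_nontrivial A with h | h
    · exfalso
      exact one_ne_zero (α := A ⧸ Ideal.span {t})
        (by rw [← map_one (Ideal.Quotient.mk (Ideal.span {t})), Subsingleton.elim (1 : A) 0,
          map_zero])
    · exact h
  have : NoZeroDivisors A := by
    constructor
    intro a b hab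
    by_contra hcon
    push Not at hcon
    obtain ⟨n, a', rfl, ha'⟩ := hdec a hcon.1
    obtain ⟨m, b', rfl, hb'⟩ := hdec b hcon.2
    have h1 : (a' * b') * t ^ (n + m) = 0 := by
      rw [← hab, pow_add]; ring
    have h2 : a' * b' = 0 :=
      (mul_right_mem_nonZeroDivisors_eq_zero_iff (pow_mem ht _)).1 h1
    have h3 : a' * b' ∈ Ideal.span {t} := by rw [h2]; exact Ideal.zero_mem _
    rcases hprime.mem_or_mem h3 with h | h
    · exact ha' h
    · exact hb' h
  exact NoZeroDivisors.to_isDomain A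

theorem exists_coeffs {ι : Type*} [Fintype ι] {d : ℕ} {t : A} (htd : t ∈ 𝒜 d) {x : ι → A}
    {w : ι → ℕ} (hx : ∀ i, x i ∈ 𝒜 (w i)) (htx : t ∈ (Ideal.span (Set.range x)).radical) (s : ℕ) :
    ∃ (N : ℕ) (a : ι → A), t ^ N = ∑ i, a i * x i ^ s ∧
      ∀ i, a i = 0 ∨ ∃ j, a i ∈ 𝒜 j ∧ s * w i + j = N * d := by
  have h1 : t ∈ (Ideal.span (Set.range fun i => x i ^ s)).radical := by
    have h2 : Ideal.span (Set.range x) ≤ (Ideal.span (Set.range fun i => x i ^ s)).radical := by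
      rw [Ideal.span_le]
      rintro _ ⟨i, rfl⟩
      exact ⟨s, Ideal.subset_span ⟨i, rfl⟩⟩
    have h3 := Ideal.radical_mono h2 htx
    rwa [Ideal.radical_idem] at h3
  obtain ⟨N, hN⟩ := h1
  obtain ⟨c, hc⟩ := (Submodule.mem_span_range_iff_exists_fun A).1 hN
  classical
  refine ⟨N, fun i => if s * w i ≤ N * d then
    (DirectSum.decompose 𝒜 (c i) (N * d - s * w i) : A) else 0, ?_, ?_⟩
  · have h4 : t ^ N ∈ 𝒜 (N * d) := by
      have := SetLike.pow_mem_graded N htd
      rwa [smul_eq_mul] at this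
    have h5 := DirectSum.decompose_of_mem_same 𝒜 h4
    rw [← h5, ← hc, DirectSum.decompose_sum, DFinsupp.finsetSum_apply,
      AddSubmonoidClass.coe_finsetSum]
    refine Finset.sum_congr rfl fun i _ => ?_
    have h6 : x i ^ s ∈ 𝒜 (s * w i) := by
      have := SetLike.pow_mem_graded s (hx i)
      rwa [smul_eq_mul] at this
    rw [smul_eq_mul]
    beta_reduce
    by_cases h7 : s * w i ≤ N * d
    · rw [DirectSum.coe_decompose_mul_of_right_mem_of_le 𝒜 h6 h7, if_pos h7]
    · rw [DirectSum.coe_decompose_mul_of_right_mem_of_not_le 𝒜 h6 h7, if_neg h7, zero_mul]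
  · intro i
    beta_reduce
    by_cases h7 : s * w i ≤ N * d
    · right
      refine ⟨N * d - s * w i, ?_, by omega⟩
      rw [if_pos h7]
      exact SetLike.coe_mem _
    · left
      rw [if_neg h7]

end ring

section proj

variable {M M' : Type*} [AddCommGroup M] [AddCommGroup M'] {ℳ : ℕ → AddSubgroup M}
  {ℳ' : ℕ → AddSubgroup M'}

theorem proj_comm (hℳ : Function.Surjective (DirectSum.coeAddMonoidHom ℳ)) {π : ℕ → M →+ M}
    {π' : ℕ → M' →+ M'} (h1 : ∀ n m, m ∈ ℳ n → π n m = m)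
    (h2 : ∀ n j m, m ∈ ℳ n → j ≠ n → π j m = 0) (h1' : ∀ n m, m ∈ ℳ' n → π' n m = m)
    (h2' : ∀ n j m, m ∈ ℳ' n → j ≠ n → π' j m = 0) (g : M →+ M') (d : ℕ)
    (hg : ∀ n m, m ∈ ℳ n → g m ∈ ℳ' (n + d)) (j : ℕ) (m : M) : π' (j + d) (g m) = g (π j m) := by
  have := addHom_ext_of_surj ℳ hℳ ((π' (j + d)).comp g) (g.comp (π j)) (by
    intro n m hm
    simp only [AddMonoidHom.comp_apply]
    by_cases h : j = n
    · subst h
      rw [h1 _ _ hm, h1' _ _ (hg _ _ hm)]
    · rw [h2 _ _ _ hm h, h2' _ _ _ (hg _ _ hm) (by omega), map_zero]) m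
  exact this

theorem proj_low (hℳ : Function.Surjective (DirectSum.coeAddMonoidHom ℳ))
    {π' : ℕ → M' →+ M'} (h2' : ∀ n j m, m ∈ ℳ' n → j ≠ n → π' j m = 0) (g : M →+ M') (d : ℕ)
    (hg : ∀ n m, m ∈ ℳ n → g m ∈ ℳ' (n + d)) (j : ℕ) (hj : j < d) (m : M) : π' j (g m) = 0 := by
  have := addHom_ext_of_surj ℳ hℳ ((π' j).comp g) 0 (by
    intro n m hm
    simp only [AddMonoidHom.comp_apply, AddMonoidHom.zero_apply]
    exact h2' _ _ _ (hg _ _ hm) (by omega)) m
  exact this

end proj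

section forms

variable {k : Type u} [Field k] {A : Type v} [CommRing A] [Algebra k A]
variable (𝒜 : ℕ → Submodule k A)

theorem wedge_mem_formDeg {d : ℕ} {t : A} (htd : t ∈ 𝒜 d) {q n : ℕ} {ω : ⋀[A]^q Ω[A⁄k]}
    (hω : ω ∈ formDeg 𝒜 q n) :
    wedge (KaehlerDifferential.D k A t) q ω ∈ formDeg 𝒜 (q + 1) (n + d) := by
  unfold formDeg at hω ⊢
  induction hω using AddSubgroup.closure_induction with
  | mem x hx =>
    obtain ⟨a, b, i, e, ha, hb, hn, rfl⟩ := hx
    apply AddSubgroup.subset_closure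
    refine ⟨a, Fin.cons t b, i, Fin.cons d e, ha, ?_, ?_, ?_⟩
    · intro j
      refine Fin.cases ?_ (fun j => ?_) j
      · simpa using htd
      · simpa using hb j
    · rw [Fin.sum_univ_succ]
      simp only [Fin.cons_zero, Fin.cons_succ]
      omega
    · rw [map_smul, wedge_ιMulti]
      congr 2
      funext j
      refine Fin.cases ?_ (fun j => ?_) j
      · rfl
      · rfl
  | zero => rw [map_zero]; exact zero_mem _
  | add x y _ _ hx hy => rw [map_add]; exact add_mem hx hy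
  | neg x _ hx => rw [map_neg]; exact neg_mem hx

/-- homogeneous parts of the quotient -/
def quotDeg (I : Ideal A) (n : ℕ) : Submodule k (A ⧸ I) :=
  (𝒜 n).map (Ideal.Quotient.mkₐ k I).toLinearMap

/-- pull back of forms -/
noncomputable def E (k : Type u) [Field k] {A : Type v} [CommRing A] [Algebra k A] (I : Ideal A)
    (p : ℕ) : ⋀[A]^p Ω[A⁄k] →ₗ[A] ⋀[A ⧸ I]^p Ω[(A ⧸ I)⁄k] :=
  extMap (A ⧸ I) p (KaehlerDifferential.map k k A (A ⧸ I))

theorem E_ιMulti (I : Ideal A) (p : ℕ) (b : Fin p → A) :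
    E k I p (exteriorPower.ιMulti A p (fun j => KaehlerDifferential.D k A (b j))) =
      exteriorPower.ιMulti (A ⧸ I) p
        (fun j => KaehlerDifferential.D k (A ⧸ I) (Ideal.Quotient.mk I (b j))) := by
  unfold E
  rw [extMap_ιMulti]
  congr 1
  funext j
  rw [KaehlerDifferential.map_D]
  rfl

theorem E_mem (I : Ideal A) {p n : ℕ} {ω : ⋀[A]^p Ω[A⁄k]} (hω : ω ∈ formDeg 𝒜 p n) :
    E k I p ω ∈ formDeg (quotDeg 𝒜 I) p n := by
  unfold formDeg at hω ⊢
  induction hω using AddSubgroup.closure_induction with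
  | mem x hx =>
    obtain ⟨a, b, i, e, ha, hb, hn, rfl⟩ := hx
    apply AddSubgroup.subset_closure
    refine ⟨Ideal.Quotient.mk I a, fun j => Ideal.Quotient.mk I (b j), i, e,
      ⟨a, ha, rfl⟩, fun j => ⟨b j, hb j, rfl⟩, hn, ?_⟩
    rw [map_smul, E_ιMulti, ← algebraMap_smul (A ⧸ I) a]
    rfl
  | zero => rw [map_zero]; exact zero_mem _
  | add x y _ _ hx hy => rw [map_add]; exact add_mem hx hy
  | neg x _ hx => rw [map_neg]; exact neg_mem hx

theorem E_surj (I : Ideal A) {p n : ℕ} {y : ⋀[A ⧸ I]^p Ω[(A ⧸ I)⁄k]}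
    (hy : y ∈ formDeg (quotDeg 𝒜 I) p n) : ∃ ω ∈ formDeg 𝒜 p n, E k I p ω = y := by
  unfold formDeg at hy
  induction hy using AddSubgroup.closure_induction with
  | mem x hx =>
    obtain ⟨a, b, i, e, ⟨a', ha', rfl⟩, hb, hn, rfl⟩ := hx
    choose b' hb' hbb' using hb
    refine ⟨a' • exteriorPower.ιMulti A p (fun j => KaehlerDifferential.D k A (b' j)),
      AddSubgroup.subset_closure ⟨a', b', i, e, ha', hb', hn, rfl⟩, ?_⟩
    rw [map_smul, E_ιMulti, ← algebraMap_smul (A ⧸ I) a']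
    have : b = fun j => Ideal.Quotient.mk I (b' j) := funext fun j => (hbb' j).symm
    rw [this]
    rfl
  | zero => exact ⟨0, zero_mem _, map_zero _⟩
  | add x y _ _ hx hy =>
    obtain ⟨x', hx', rfl⟩ := hx
    obtain ⟨y', hy', rfl⟩ := hy
    exact ⟨x' + y', add_mem hx' hy', map_add _ _ _⟩
  | neg x _ hx =>
    obtain ⟨x', hx', rfl⟩ := hx
    exact ⟨-x', neg_mem hx', map_neg _ _⟩

end forms

end Pool.Agent.H74.IA
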