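import Mathlib

/-!
# Graded local cohomology through Koszul complexes

For elements `x i` of a commutative ring and a module `M`, the local cohomology of `M` with support
in the ideal generated by the `x i` is the direct limit over `t` of the cohomology of the Koszul
complexes of `M` with respect to the powers `(x i) ^ t`.  A cochain of the Koszul complex is a
function on the finite subsets of the index set (cohomological degree = cardinality).
-/

namespace Pool.Agent.H74.IA

open Finset

/-- The sign with which `i` enters the set `I`. -/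
def sg {ι : Type*} [LinearOrder ι] (i : ι) (I : Finset ι) : ℤ := (-1) ^ (I.filter (· < i)).card

/-- The differential of the (total) Koszul complex of `M` with respect to the elements
`(x i) ^ t`. -/
def kd {R M ι : Type*} [CommRing R] [AddCommGroup M] [Module R M] [LinearOrder ι]
    (x : ι → R) (t : ℕ) (c : Finset ι → M) : Finset ι → M :=
  fun I => ∑ i ∈ I, sg i I • (x i ^ t • c (I.erase i))

/-- The transition map from the Koszul complex for the `t`-th powers to that for the
`(t+s)`-th powers. -/
def tr {R M ι : Type*} [CommRing R] [AddCommGroup M] [Module R M]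
    (x : ι → R) (s : ℕ) (c : Finset ι → M) : Finset ι → M :=
  fun I => (∏ i ∈ I, x i) ^ s • c I

/-- The degree `n` part of the local cohomology of `M` with support in the ideal generated by the
`x i` vanishes (in all cohomological degrees): every cocycle of degree `n` of a Koszul complex
becomes a coboundary in a later Koszul complex.  Here `w i` is the degree of `x i` and `ℳ k` is the
degree `k` part of `M`. -/
def Van {R M ι : Type*} [CommRing R] [AddCommGroup M] [Module R M] [LinearOrder ι]
    (x : ι → R) (w : ι → ℕ) (ℳ : ℕ → AddSubgroup M) (n : ℕ) : Prop :=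
  ∀ (t : ℕ) (c : Finset ι → M), (∀ I, c I ∈ ℳ (n + t * ∑ i ∈ I, w i)) → kd x t c = 0 →
    ∃ (s : ℕ) (b : Finset ι → M), (∀ I, b I ∈ ℳ (n + (t + s) * ∑ i ∈ I, w i)) ∧
      kd x (t + s) b = tr x s c

set_option linter.unusedSectionVars false

section

variable {R M M' ι : Type*} [CommRing R] [AddCommGroup M] [Module R M] [AddCommGroup M']
  [Module R M'] [LinearOrder ι] (x : ι → R)

theorem sg_sq (i : ι) (I : Finset ι) : sg i I * sg i I = 1 := by
  unfold sg
  rw [← mul_pow]
  norm_num

theorem sg_erase_self (i : ι) (I : Finset ι) : sg i (I.erase i) = sg i I := by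
  unfold sg
  congr 2
  ext j
  simp only [mem_filter, mem_erase]
  constructor
  · rintro ⟨⟨_, h⟩, h'⟩; exact ⟨h, h'⟩
  · rintro ⟨h, h'⟩; exact ⟨⟨h'.ne, h⟩, h'⟩

theorem sg_erase_of_lt {i j : ι} (I : Finset ι) (hi : i ∈ I) (hij : i < j) :
    sg j (I.erase i) = - sg j I := by
  unfold sg
  have h : (I.filter (· < j)) = insert i ((I.erase i).filter (· < j)) := by
    ext l
    simp only [mem_filter, mem_insert, mem_erase]
    constructor
    · rintro ⟨h1, h2⟩
      by_cases hl : l = i
      · exact Or.inl hl
      · exact Or.inr ⟨⟨hl, h1⟩, h2⟩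
    · rintro (rfl | ⟨⟨_, h1⟩, h2⟩)
      · exact ⟨hi, hij⟩
      · exact ⟨h1, h2⟩
  rw [h, card_insert_of_notMem (by simp), pow_succ]
  ring

theorem sg_erase_of_gt {i j : ι} (I : Finset ι) (hij : j < i) :
    sg j (I.erase i) = sg j I := by
  unfold sg
  congr 2
  ext l
  simp only [mem_filter, mem_erase]
  constructor
  · rintro ⟨⟨_, h⟩, h'⟩; exact ⟨h, h'⟩
  · rintro ⟨h, h'⟩; exact ⟨⟨(h'.trans hij).ne, h⟩, h'⟩

theorem sg_swap {i j : ι} (I : Finset ι) (hi : i ∈ I) (hj : j ∈ I) (hij : i ≠ j) :
    sg i I * sg j (I.erase i) = -(sg j I * sg i (I.erase j)) := by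
  rcases lt_or_gt_of_ne hij with h | h
  · rw [sg_erase_of_lt I hi h, sg_erase_of_gt I h]; ring
  · rw [sg_erase_of_gt I h, sg_erase_of_lt I hj h]; ring

theorem kd_add (t : ℕ) (c c' : Finset ι → M) : kd x t (c + c') = kd x t c + kd x t c' := by
  funext I
  simp only [kd, Pi.add_apply, smul_add, sum_add_distrib]

theorem kd_sub (t : ℕ) (c c' : Finset ι → M) : kd x t (c - c') = kd x t c - kd x t c' := by
  funext I
  simp only [kd, Pi.sub_apply, smul_sub, sum_sub_distrib]

theorem kd_zero (t : ℕ) : kd x t (0 : Finset ι → M) = 0 := by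
  funext I
  simp [kd]

theorem kd_sum {κ : Type*} (t : ℕ) (s : Finset κ) (c : κ → Finset ι → M) :
    kd x t (∑ a ∈ s, c a) = ∑ a ∈ s, kd x t (c a) := by
  classical
  induction s using Finset.induction_on with
  | empty => simp [kd_zero]
  | insert a s ha ih => rw [sum_insert ha, sum_insert ha, kd_add, ih]

theorem kd_smul (t : ℕ) (a : R) (c : Finset ι → M) :
    kd x t (fun I => a • c I) = fun I => a • kd x t c I := by
  funext I
  simp only [kd, smul_sum]
  refine sum_congr rfl fun i _ => ?_
  rw [smul_comm a (sg i I), smul_comm (x i ^ t) a]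

theorem kd_map (t : ℕ) (g : M →ₗ[R] M') (c : Finset ι → M) :
    kd x t (fun I => g (c I)) = fun I => g (kd x t c I) := by
  funext I
  simp only [kd, map_sum, map_zsmul, map_smul]

theorem tr_add (s : ℕ) (c c' : Finset ι → M) : tr x s (c + c') = tr x s c + tr x s c' := by
  funext I
  simp only [tr, Pi.add_apply, smul_add]

theorem tr_sub (s : ℕ) (c c' : Finset ι → M) : tr x s (c - c') = tr x s c - tr x s c' := by
  funext I
  simp only [tr, Pi.sub_apply, smul_sub]

theorem tr_zero (s : ℕ) : tr x s (0 : Finset ι → M) = 0 := by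
  funext I
  simp [tr]

theorem tr_tr (s s' : ℕ) (c : Finset ι → M) : tr x s' (tr x s c) = tr x (s + s') c := by
  funext I
  simp only [tr, smul_smul, ← pow_add]
  rw [add_comm]

theorem tr_smul (s : ℕ) (a : R) (c : Finset ι → M) :
    tr x s (fun I => a • c I) = fun I => a • tr x s c I := by
  funext I
  simp only [tr]
  rw [smul_comm]

theorem tr_map (s : ℕ) (g : M →ₗ[R] M') (c : Finset ι → M) :
    tr x s (fun I => g (c I)) = fun I => g (tr x s c I) := by
  funext I
  simp only [tr, map_smul]

theorem kd_tr (t s : ℕ) (c : Finset ι → M) : kd x (t + s) (tr x s c) = tr x s (kd x t c) := by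
  funext I
  simp only [kd, tr, smul_sum]
  refine sum_congr rfl fun i hi => ?_
  rw [smul_comm (((∏ i ∈ I, x i) ^ s : R)) (sg i I)]
  congr 1
  rw [smul_smul, smul_smul, ← mul_prod_erase I x hi]
  congr 1
  ring

/-- The Koszul differential squares to zero. -/
theorem kd_kd (t : ℕ) (c : Finset ι → M) : kd x t (kd x t c) = 0 := by
  funext I
  simp only [kd, Pi.zero_apply]
  have h1 : (∑ i ∈ I, sg i I • (x i ^ t • ∑ j ∈ I.erase i,
      sg j (I.erase i) • (x j ^ t • c ((I.erase i).erase j)))) =
      ∑ p ∈ I.sigma (fun i => I.erase i), (sg p.1 I * sg p.2 (I.erase p.1)) •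
        ((x p.1 ^ t * x p.2 ^ t) • c ((I.erase p.1).erase p.2)) := by
    rw [sum_sigma]
    refine sum_congr rfl fun i _ => ?_
    rw [smul_sum, smul_sum]
    refine sum_congr rfl fun j _ => ?_
    rw [smul_comm (x i ^ t) (sg j (I.erase i)), smul_smul, smul_smul]
  rw [h1]
  refine sum_involution (fun p _ => ⟨p.2, p.1⟩) ?_ ?_ ?_ ?_
  · rintro ⟨i, j⟩ hp
    simp only [mem_sigma, mem_erase] at hp
    obtain ⟨hi, hji, hj⟩ := hp
    simp only
    rw [sg_swap I hi hj (Ne.symm hji), erase_right_comm, mul_comm (x j ^ t) (x i ^ t), neg_smul]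
    abel
  · rintro ⟨i, j⟩ hp _ h
    simp only [mem_sigma, mem_erase] at hp
    simp only [Sigma.mk.injEq, heq_eq_eq] at h
    exact hp.2.1 h.1
  · rintro ⟨i, j⟩ hp
    simp only [mem_sigma, mem_erase] at hp ⊢
    exact ⟨hp.2.2, Ne.symm hp.2.1, hp.1⟩
  · rintro ⟨i, j⟩ _
    rfl

/-- The contraction with the index `i`. -/
def ct (i : ι) (c : Finset ι → M) : Finset ι → M :=
  fun I => if i ∈ I then 0 else sg i I • c (insert i I)

theorem sg_insert_self (i : ι) (I : Finset ι) : sg i (insert i I) = sg i I := by
  unfold sg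
  congr 2
  ext j
  simp only [mem_filter, mem_insert]
  constructor
  · rintro ⟨rfl | h, h'⟩
    · exact absurd h' (lt_irrefl _)
    · exact ⟨h, h'⟩
  · rintro ⟨h, h'⟩; exact ⟨Or.inr h, h'⟩

theorem sg_homotopy {i j : ι} (I : Finset ι) (hi : i ∉ I) (hj : j ∈ I) :
    sg j I * sg i (I.erase j) = -(sg i I * sg j (insert i I)) := by
  have hij : i ≠ j := fun h => hi (h ▸ hj)
  have h1 := sg_swap (insert i I) (mem_insert_self i I) (mem_insert_of_mem hj) hij
  rw [erase_insert hi, sg_insert_self] at h1
  have h2 : sg i ((insert i I).erase j) = sg i (I.erase j) := by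
    rw [erase_insert_of_ne hij, sg_insert_self]
  rw [h2] at h1
  -- `sg i I * sg j I = - (sg j (insert i I) * sg i (I.erase j))`
  have h3 := sg_sq j I
  have h4 := sg_sq j (insert i I)
  have h5 : sg j I * sg i (I.erase j) =
      sg j I * sg j (insert i I) * (sg j (insert i I) * sg i (I.erase j)) := by
    linear_combination (-(sg j I * sg i (I.erase j))) * h4
  rw [h5, show sg j (insert i I) * sg i (I.erase j) = -(sg i I * sg j I) by
    linear_combination h1]
  linear_combination (-(sg i I * sg j (insert i I))) * h3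

theorem kd_ct (t : ℕ) (i : ι) (c : Finset ι → M) (hc : kd x t c = 0) :
    kd x t (ct i c) = fun I => x i ^ t • c I := by
  funext I
  by_cases hi : i ∈ I
  · simp only [kd]
    rw [sum_eq_single i]
    · simp only [ct, mem_erase, ne_eq, not_true_eq_false, false_and, if_false]
      rw [sg_erase_self, insert_erase hi, smul_comm (x i ^ t) (sg i I), smul_smul, sg_sq, one_smul]
    · intro j _ hji
      have : i ∈ I.erase j := mem_erase.2 ⟨Ne.symm hji, hi⟩
      simp only [ct, this, if_true, smul_zero]
    · intro h; exact absurd hi h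
  · have h0 : kd x t c (insert i I) = 0 := by rw [hc]; rfl
    simp only [kd] at h0
    rw [sum_insert hi, erase_insert hi, sg_insert_self] at h0
    have h1 : (∑ j ∈ I, sg j (insert i I) • (x j ^ t • c ((insert i I).erase j))) =
        -(sg i I • (x i ^ t • c I)) := by
      rw [eq_neg_iff_add_eq_zero, add_comm]; exact h0
    simp only [kd]
    have h2 : (∑ j ∈ I, sg j I • (x j ^ t • ct i c (I.erase j))) =
        -(sg i I • ∑ j ∈ I, sg j (insert i I) • (x j ^ t • c ((insert i I).erase j))) := by
      rw [smul_sum, ← sum_neg_distrib]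
      refine sum_congr rfl fun j hj => ?_
      have hij : i ≠ j := fun h => hi (h ▸ hj)
      have h3 : i ∉ I.erase j := fun h => hi (mem_of_mem_erase h)
      simp only [ct, h3, if_false]
      rw [smul_comm (x j ^ t) (sg i (I.erase j)), smul_smul, smul_smul, sg_homotopy I hi hj,
        neg_smul, erase_insert_of_ne hij]
    rw [h2, h1, smul_neg, neg_neg, smul_smul, sg_sq, one_smul]

end

end Pool.Agent.H74.IA
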