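import Pool.Agent.H74.IA.Graded

/-!
# Graded inversion of adjunction for the local cohomology of Kähler differentials
-/

open scoped TensorProduct

namespace Pool.Agent.H74.IA

open Pool.Agent.H71

universe u v

theorem Van.restrict {A M ι : Type*} [CommRing A] (I : Ideal A) [AddCommGroup M] [Module A M]
    [Module (A ⧸ I) M] [IsScalarTower A (A ⧸ I) M] [LinearOrder ι] {x : ι → A} {w : ι → ℕ}
    {ℳ : ℕ → AddSubgroup M} {n : ℕ} (h : Van (fun i => Ideal.Quotient.mk I (x i)) w ℳ n) :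
    Van x w ℳ n := by
  have h0 : ∀ (a : A) (m : M), Ideal.Quotient.mk I a • m = a • m := fun a m =>
    algebraMap_smul (A ⧸ I) a m
  have h1 : ∀ (t : ℕ) (c : Finset ι → M),
      kd (fun i => Ideal.Quotient.mk I (x i)) t c = kd x t c := by
    intro t c
    funext J
    simp only [kd, ← map_pow, h0]
  have h2 : ∀ (s : ℕ) (c : Finset ι → M),
      tr (fun i => Ideal.Quotient.mk I (x i)) s c = tr x s c := by
    intro s c
    funext J
    simp only [tr, ← map_prod, ← map_pow, h0]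
  intro t c hc hc0
  obtain ⟨s, b, hb, hb0⟩ := h t c hc (by rw [h1]; exact hc0)
  exact ⟨s, b, hb, by rw [← h1, ← h2]; exact hb0⟩

theorem Van.punit {R ι : Type*} [CommRing R] [LinearOrder ι] (x : ι → R) (w : ι → ℕ) (n : ℕ) :
    Van (M := PUnit) x w (fun _ => ⊤) n := by
  intro t c _ _
  exact ⟨0, 0, fun _ => trivial, by funext J; rfl⟩

section

variable {k : Type u} [Field k] {A : Type v} [CommRing A] [Algebra k A]
variable (𝒜 : ℕ → Submodule k A) [GradedAlgebra 𝒜]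

theorem smul_form_mem {i : ℕ} {r : A} (hr : r ∈ 𝒜 i) {p n : ℕ} {ω : ⋀[A]^p Ω[A⁄k]}
    (hω : ω ∈ formDeg 𝒜 p n) : r • ω ∈ formDeg 𝒜 p (n + i) :=
  smul_mem_formDeg 𝒜 (fun _ _ _ _ h h' => SetLike.mul_mem_graded h h') hr hω

theorem nzd_forms [CharZero k] [Algebra.EssFiniteType k A] {d : ℕ} (hd : 0 < d) {t : A}
    (htd : t ∈ 𝒜 d) (ht : t ∈ nonZeroDivisors A) [IsDomain (A ⧸ Ideal.span {t})] (p : ℕ)
    (hQ : TF (Ideal.span {t}) (⋀[A]^p Ω[A⁄k] ⧸ (Ideal.span {t} • ⊤ : Submodule A (⋀[A]^p Ω[A⁄k]))))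
    (m : ⋀[A]^p Ω[A⁄k]) (hm : t • m = 0) : m = 0 := by
  have hN : IsNoetherianRing A := Algebra.EssFiniteType.isNoetherianRing k A
  have hD : IsDomain A := isDomain_of_graded 𝒜 hd htd ht
  have ht0 : t ≠ 0 := nonZeroDivisors.ne_zero ht
  obtain ⟨a, ha, n0, α, β, hαβ⟩ := factorsFree_at_good (k := k) t ht0 ⊥ goodPrime_bot p
  have ha' : a ∉ Ideal.span {t} := by
    intro h
    apply ha
    rw [Ideal.mem_bot]
    exact Ideal.Quotient.eq_zero_iff_mem.2 h
  have hsurj := (formDeg_isInternal 𝒜 p).2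
  obtain ⟨π, hπ, hπ1, hπ2, hπ0, -⟩ := exists_proj _ (formDeg_isInternal 𝒜 p)
  let g : ⋀[A]^p Ω[A⁄k] →+ ⋀[A]^p Ω[A⁄k] := (t • (LinearMap.id : ⋀[A]^p Ω[A⁄k] →ₗ[A] _)).toAddMonoidHom
  have hg : ∀ m, g m = t • m := fun m => rfl
  have hgd : ∀ n m, m ∈ formDeg 𝒜 p n → g m ∈ formDeg 𝒜 p (n + d) :=
    fun n m hm => smul_form_mem 𝒜 htd hm
  have hcomm := proj_comm hsurj hπ1 hπ2 hπ1 hπ2 g d hgd
  have hlow := proj_low hsurj hπ2 g d hgd
  have htor : ∀ (N : ℕ) (ω : ⋀[A]^p Ω[A⁄k]), t ^ N • ω = 0 → a • ω = 0 := by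
    intro N ω h
    have h1 : t ^ N • α ω = 0 := by rw [← map_smul, h, map_zero]
    have h2 : α ω = 0 := by
      funext i
      have h3 := congrFun h1 i
      rw [Pi.smul_apply, smul_eq_mul, Pi.zero_apply, mul_eq_zero] at h3
      rcases h3 with h3 | h3
      · exact absurd h3 (pow_ne_zero N ht0)
      · exact h3
    have h4 := LinearMap.congr_fun hαβ ω
    rw [LinearMap.comp_apply, h2, map_zero] at h4
    exact h4.symm
  have key : ∀ (n : ℕ) (ω : ⋀[A]^p Ω[A⁄k]), ω ∈ formDeg 𝒜 p n → ∀ N : ℕ, t ^ N • ω = 0 → ω = 0 := by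
    intro n
    induction n using Nat.strong_induction_on with
    | _ n ih =>
      intro ω hω N hN
      have h1 := htor N ω hN
      have h2 : (Submodule.Quotient.mk ω : ⋀[A]^p Ω[A⁄k] ⧸
          (Ideal.span {t} • ⊤ : Submodule A (⋀[A]^p Ω[A⁄k]))) = 0 := by
        apply hQ a ha'
        rw [← Submodule.Quotient.mk_smul, h1, Submodule.Quotient.mk_zero]
      rw [Submodule.Quotient.mk_eq_zero, Submodule.ideal_span_singleton_smul] at h2
      obtain ⟨ω', -, hω'⟩ := h2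
      have hω'' : g ω' = ω := hω'
      by_cases hnd : n < d
      · rw [← hπ1 n ω hω, ← hω'', hlow n hnd]
      · have hnd' : n = (n - d) + d := by omega
        have h3 : ω = t • π (n - d) ω' := by
          rw [← hg, ← hcomm, ← hnd', hω'', hπ1 n ω hω]
        have h4 := ih (n - d) (by omega) (π (n - d) ω') (hπ _ _) (N + 1) (by
          rw [pow_succ, mul_smul, ← h3, hN])
        rw [h3, h4, smul_zero]
  apply hπ0
  intro n
  apply key n _ (hπ n m) 1
  rw [pow_one, ← hg, ← hcomm, hg, hm, map_zero]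

/-- The module of forms is torsion-free if its reduction is. -/
theorem torsionFree_forms {d : ℕ} (hd : 0 < d) {t : A}
    (htd : t ∈ 𝒜 d) (p : ℕ)
    (hQ : TF (Ideal.span {t}) (⋀[A]^p Ω[A⁄k] ⧸ (Ideal.span {t} • ⊤ : Submodule A (⋀[A]^p Ω[A⁄k]))))
    (hnz : ∀ m : ⋀[A]^p Ω[A⁄k], t • m = 0 → m = 0) (a : A) (ω : ⋀[A]^p Ω[A⁄k])
    (h : a • ω = 0) : a = 0 ∨ ω = 0 := by
  by_cases ha : a = 0
  · exact Or.inl ha
  right
  have hnz' : ∀ (n : ℕ) (m : ⋀[A]^p Ω[A⁄k]), t ^ n • m = 0 → m = 0 := by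
    intro n
    induction n with
    | zero => intro m hm; simpa using hm
    | succ n ih =>
      intro m hm
      rw [pow_succ', mul_smul] at hm
      exact ih m (hnz _ hm)
  obtain ⟨n, a', rfl, ha'⟩ := exists_pow_mul 𝒜 hd htd a ha
  rw [mul_smul] at h
  have h1 : a' • ω = 0 := hnz' n _ h
  have h2 : ∀ n : ℕ, ∃ ω' : ⋀[A]^p Ω[A⁄k], ω = t ^ n • ω' := by
    intro n
    induction n with
    | zero => exact ⟨ω, by simp⟩
    | succ n ih =>
      obtain ⟨ω', hω'⟩ := ih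
      have h3 : a' • ω' = 0 := by
        apply hnz' n
        rw [smul_comm, ← hω', h1]
      have h4 : (Submodule.Quotient.mk ω' : ⋀[A]^p Ω[A⁄k] ⧸
          (Ideal.span {t} • ⊤ : Submodule A (⋀[A]^p Ω[A⁄k]))) = 0 := by
        apply hQ a' ha'
        rw [← Submodule.Quotient.mk_smul, h3, Submodule.Quotient.mk_zero]
      rw [Submodule.Quotient.mk_eq_zero, Submodule.ideal_span_singleton_smul] at h4
      obtain ⟨ω'', -, hω''⟩ := h4
      have hω3 : t • ω'' = ω' := hω''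
      exact ⟨ω'', by rw [hω', ← hω3, pow_succ, mul_smul]⟩
  have hsurj := (formDeg_isInternal 𝒜 p).2
  obtain ⟨π, hπ, hπ1, hπ2, hπ0, -⟩ := exists_proj _ (formDeg_isInternal 𝒜 p)
  apply hπ0
  intro j
  obtain ⟨ω', hω'⟩ := h2 (j + 1)
  let g : ⋀[A]^p Ω[A⁄k] →+ ⋀[A]^p Ω[A⁄k] :=
    (t ^ (j + 1) • (LinearMap.id : ⋀[A]^p Ω[A⁄k] →ₗ[A] _)).toAddMonoidHom
  have hg : ∀ m, g m = t ^ (j + 1) • m := fun m => rfl
  have htj : t ^ (j + 1) ∈ 𝒜 ((j + 1) * d) := by
    have := SetLike.pow_mem_graded (j + 1) htd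
    rwa [smul_eq_mul] at this
  have hlow := proj_low hsurj hπ2 g ((j + 1) * d)
    (fun n m hm => smul_form_mem 𝒜 htj hm) j (by nlinarith) ω'
  rw [hω', ← hg, hlow]

theorem form_mem_of_smul {d : ℕ} {t : A} (htd : t ∈ 𝒜 d) (p : ℕ)
    (hnz : ∀ m : ⋀[A]^p Ω[A⁄k], t • m = 0 → m = 0) (n : ℕ) (m : ⋀[A]^p Ω[A⁄k])
    (hm : t • m ∈ formDeg 𝒜 p (n + d)) : m ∈ formDeg 𝒜 p n := by
  have hsurj := (formDeg_isInternal 𝒜 p).2
  obtain ⟨π, hπ, hπ1, hπ2, hπ0, -⟩ := exists_proj _ (formDeg_isInternal 𝒜 p)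
  let g : ⋀[A]^p Ω[A⁄k] →+ ⋀[A]^p Ω[A⁄k] := (t • (LinearMap.id : ⋀[A]^p Ω[A⁄k] →ₗ[A] _)).toAddMonoidHom
  have hg : ∀ m, g m = t • m := fun m => rfl
  have hgd : ∀ n m, m ∈ formDeg 𝒜 p n → g m ∈ formDeg 𝒜 p (n + d) :=
    fun n m hm => smul_form_mem 𝒜 htd hm
  have hcomm := proj_comm hsurj hπ1 hπ2 hπ1 hπ2 g d hgd
  have h1 : m - π n m = 0 := by
    apply hπ0
    intro j
    rw [map_sub]
    by_cases hj : j = n
    · subst hj
      rw [hπ1 _ _ (hπ j m), sub_self]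
    · rw [hπ2 _ _ _ (hπ n m) hj, sub_zero]
      apply hnz
      rw [← hg, ← hcomm, hg]
      exact hπ2 _ _ _ hm (by omega)
  rw [sub_eq_zero.1 h1]
  exact hπ n m

/-- homogeneous parts of the reduction of the module of forms -/
noncomputable def redDeg (t : A) (p n : ℕ) :
    AddSubgroup (⋀[A]^p Ω[A⁄k] ⧸ (Ideal.span {t} • ⊤ : Submodule A (⋀[A]^p Ω[A⁄k]))) :=
  (formDeg 𝒜 p n).map
    (Submodule.mkQ (Ideal.span {t} • ⊤ : Submodule A (⋀[A]^p Ω[A⁄k]))).toAddMonoidHom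

theorem van_quotient [CharZero k] [Algebra.EssFiniteType k A] {d : ℕ} (hd : 0 < d) {t : A}
    (htd : t ∈ 𝒜 d) (ht : t ∈ nonZeroDivisors A) [IsDomain (A ⧸ Ideal.span {t})]
    {ι : Type*} [LinearOrder ι] {x : ι → A} {w : ι → ℕ} (hx : ∀ i, x i ∈ 𝒜 (w i)) (p : ℕ)
    (hTF : ∀ q ≤ p, TF (Ideal.span {t})
      (⋀[A ⧸ Ideal.span {t}]^q Ω[(A ⧸ Ideal.span {t})⁄k]))
    (hV : ∀ q ≤ p, ∀ n, 0 < n → Van x w (formDeg (quotDeg 𝒜 (Ideal.span {t})) q) n) (n : ℕ)
    (hn : 0 < n) : Van x w (redDeg 𝒜 t p) (n + d) := by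
  have hN : IsNoetherianRing A := Algebra.EssFiniteType.isNoetherianRing k A
  have hD : IsDomain A := isDomain_of_graded 𝒜 hd htd ht
  have hprime : (Ideal.span {t}).IsPrime := Ideal.Quotient.isDomain_iff_prime _ |>.1 inferInstance
  have ht0 : t ≠ 0 := nonZeroDivisors.ne_zero ht
  have hred1 : ∀ n m, m ∈ redDeg 𝒜 t p n → redMap (Ideal.span {t}) p
      (KaehlerDifferential.map k k A (A ⧸ Ideal.span {t})) m ∈
      formDeg (quotDeg 𝒜 (Ideal.span {t})) p n := by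
    rintro n _ ⟨ω, hω, rfl⟩
    exact E_mem 𝒜 _ hω
  have hred2 : ∀ n y, y ∈ formDeg (quotDeg 𝒜 (Ideal.span {t})) p n → ∃ m ∈ redDeg 𝒜 t p n,
      redMap (Ideal.span {t}) p (KaehlerDifferential.map k k A (A ⧸ Ideal.span {t})) m = y := by
    intro n y hy
    obtain ⟨ω, hω, rfl⟩ := E_surj 𝒜 _ hy
    exact ⟨Submodule.Quotient.mk ω, ⟨ω, hω, rfl⟩, rfl⟩
  have hxm : ∀ i n m, m ∈ redDeg 𝒜 t p n → x i • m ∈ redDeg 𝒜 t p (n + w i) := by
    rintro i n _ ⟨ω, hω, rfl⟩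
    exact ⟨x i • ω, smul_form_mem 𝒜 (hx i) hω, rfl⟩
  have hfs : Function.Surjective (KaehlerDifferential.map k k A (A ⧸ Ideal.span {t})) :=
    KaehlerDifferential.map_surjective_of_surjective k k A (A ⧸ Ideal.span {t})
      Ideal.Quotient.mk_surjective
  rcases p with _ | q
  · refine Van.extension (M' := PUnit) (ℳ' := fun _ => ⊤) (0 : PUnit →ₗ[A] _)
      (redMap (Ideal.span {t}) 0 (KaehlerDifferential.map k k A (A ⧸ Ideal.span {t})))
      (fun _ _ _ => rfl) ?_ d (fun _ _ _ => zero_mem _) (fun _ _ _ => trivial) hred2 hred1 hxm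
      (Van.punit x w n) (hV 0 le_rfl (n + d) (by omega))
    intro m hm
    refine ⟨0, ?_⟩
    apply redMap_zero_injective _ _ hfs
    rw [hm, map_zero, map_zero]
  · obtain ⟨lam, hlam⟩ := exists_functional' (k := k) t ht0
    obtain ⟨ψ, hψ, hex, hinj⟩ := exists_psi (Ideal.span {t}) t rfl
      (KaehlerDifferential.map k k A (A ⧸ Ideal.span {t})) hfs (KaehlerDifferential.D k A t)
      (by
        rw [KaehlerDifferential.map_D, Ideal.Quotient.algebraMap_eq,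
          Ideal.Quotient.eq_zero_iff_mem.2 (Ideal.mem_span_singleton_self t), map_zero])
      (fun x hx ↦ ker_kaehler_map t x hx) lam hlam q (hTF q (Nat.le_succ q))
    refine Van.extension (ℳ' := formDeg (quotDeg 𝒜 (Ideal.span {t})) q) ψ
      (redMap (Ideal.span {t}) (q + 1) (KaehlerDifferential.map k k A (A ⧸ Ideal.span {t})))
      hinj hex d ?_ ?_ hred2 hred1 hxm (hV q (Nat.le_succ q) n hn)
      (hV (q + 1) le_rfl (n + d) (by omega))
    · intro j y hy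
      obtain ⟨ω, hω, rfl⟩ := E_surj 𝒜 _ hy
      rw [show ψ (E k (Ideal.span {t}) q ω) = _ from hψ ω]
      exact ⟨wedge _ q ω, wedge_mem_formDeg 𝒜 htd hω, rfl⟩
    · intro j y hy
      obtain ⟨X, hX⟩ := extMap_surjective (A := A) (B := A ⧸ Ideal.span {t})
        Ideal.Quotient.mk_surjective q (KaehlerDifferential.map k k A (A ⧸ Ideal.span {t})) hfs y
      have hX' : E k (Ideal.span {t}) q X = y := hX
      clear hX
      subst hX'
      obtain ⟨m0, hm0, hm0'⟩ := hy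
      have h1 : ψ (E k (Ideal.span {t}) q X) =
        Submodule.Quotient.mk (wedge (KaehlerDifferential.D k A t) q X) := hψ X
      rw [h1] at hm0'
      have h2 : wedge (KaehlerDifferential.D k A t) q X - m0 ∈
          (Ideal.span {t} • ⊤ : Submodule A (⋀[A]^(q + 1) Ω[A⁄k])) :=
        (Submodule.Quotient.eq _).1 hm0'.symm
      rw [Submodule.ideal_span_singleton_smul] at h2
      obtain ⟨h, -, hh⟩ := h2
      have hsurj := (formDeg_isInternal 𝒜 q).2
      have hsurj' := (formDeg_isInternal 𝒜 (q + 1)).2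
      obtain ⟨π, hπ, hπ1, hπ2, hπ0, hπs⟩ := exists_proj _ (formDeg_isInternal 𝒜 q)
      obtain ⟨π', hπ', hπ1', hπ2', hπ0', -⟩ := exists_proj _ (formDeg_isInternal 𝒜 (q + 1))
      let g : ⋀[A]^(q + 1) Ω[A⁄k] →+ ⋀[A]^(q + 1) Ω[A⁄k] :=
        (t • (LinearMap.id : ⋀[A]^(q + 1) Ω[A⁄k] →ₗ[A] _)).toAddMonoidHom
      have hgh : g h = wedge (KaehlerDifferential.D k A t) q X - m0 := hh
      have hcomm := proj_comm hsurj' hπ1' hπ2' hπ1' hπ2' g d
        (fun n m hm => smul_form_mem 𝒜 htd hm)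
      have hcommw := proj_comm hsurj hπ1 hπ2 hπ1' hπ2'
        (wedge (KaehlerDifferential.D k A t) q).toAddMonoidHom d
        (fun n m hm => wedge_mem_formDeg 𝒜 htd hm)
      have hne : ∀ i, i ≠ j → E k (Ideal.span {t}) q (π i X) = 0 := by
        intro i hij
        apply hinj
        have h3 : ψ (E k (Ideal.span {t}) q (π i X)) =
          Submodule.Quotient.mk (wedge (KaehlerDifferential.D k A t) q (π i X)) := hψ (π i X)
        rw [h3, map_zero, Submodule.Quotient.mk_eq_zero, Submodule.ideal_span_singleton_smul]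
        have h4 := hcommw i X
        have h5 := congrArg (π' (i + d)) hgh
        rw [hcomm, map_sub, hπ2' _ _ _ hm0 (by omega), sub_zero] at h5
        refine ⟨π' i h, trivial, ?_⟩
        have h6 : g (π' i h) = wedge (KaehlerDifferential.D k A t) q (π i X) := h5.trans h4
        exact h6
      obtain ⟨s, hs⟩ := hπs X
      have h7 : E k (Ideal.span {t}) q X = ∑ i ∈ s, E k (Ideal.span {t}) q (π i X) := by
        conv_lhs => rw [hs]
        rw [map_sum]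
      by_cases hj : j ∈ s
      · rw [h7, Finset.sum_eq_single_of_mem j hj (fun i _ hij => hne i hij)]
        exact E_mem 𝒜 _ (hπ j X)
      · rw [h7, Finset.sum_eq_zero]
        · exact zero_mem _
        · intro i hi
          exact hne i (fun h => hj (h ▸ hi))

theorem graded_main [CharZero k] [Algebra.EssFiniteType k A] {d : ℕ} (hd : 0 < d) {t : A}
    (htd : t ∈ 𝒜 d) (ht : t ∈ nonZeroDivisors A) [IsDomain (A ⧸ Ideal.span {t})]
    {ι : Type*} [Fintype ι] [LinearOrder ι] {x : ι → A} {w : ι → ℕ} (hx : ∀ i, x i ∈ 𝒜 (w i))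
    (htx : t ∈ (Ideal.span (Set.range x)).radical) (m : ℕ)
    (hTF : ∀ q ≤ m, TF (Ideal.span {t})
      (⋀[A ⧸ Ideal.span {t}]^q Ω[(A ⧸ Ideal.span {t})⁄k]))
    (hV : ∀ q ≤ m, ∀ n, 0 < n → Van (fun i => Ideal.Quotient.mk (Ideal.span {t}) (x i)) w
      (formDeg (quotDeg 𝒜 (Ideal.span {t})) q) n) :
    ∀ p ≤ m, (∀ (a : A) (ω : ⋀[A]^p Ω[A⁄k]), a • ω = 0 → a = 0 ∨ ω = 0) ∧
      ∀ n, 0 < n → Van x w (formDeg 𝒜 p) n := by
  have hN : IsNoetherianRing A := Algebra.EssFiniteType.isNoetherianRing k A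
  have hD : IsDomain A := isDomain_of_graded 𝒜 hd htd ht
  have hprime : (Ideal.span {t}).IsPrime := Ideal.Quotient.isDomain_iff_prime _ |>.1 inferInstance
  have ht0 : t ≠ 0 := nonZeroDivisors.ne_zero ht
  have hV' : ∀ q ≤ m, ∀ n, 0 < n → Van x w (formDeg (quotDeg 𝒜 (Ideal.span {t})) q) n :=
    fun q hq n hn => (hV q hq n hn).restrict
  have hfs : Function.Surjective (KaehlerDifferential.map k k A (A ⧸ Ideal.span {t})) :=
    KaehlerDifferential.map_surjective_of_surjective k k A (A ⧸ Ideal.span {t})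
      Ideal.Quotient.mk_surjective
  obtain ⟨lam, hlam⟩ := exists_functional' (k := k) t ht0
  intro p hp
  have hQ : TF (Ideal.span {t})
      (⋀[A]^p Ω[A⁄k] ⧸ (Ideal.span {t} • ⊤ : Submodule A (⋀[A]^p Ω[A⁄k]))) := by
    refine tf_quot (Ideal.span {t}) t rfl
      (KaehlerDifferential.map k k A (A ⧸ Ideal.span {t})) hfs (KaehlerDifferential.D k A t) ?_
      (fun x hx ↦ ker_kaehler_map t x hx) lam hlam p (fun q hq => hTF q (hq.trans hp))
    rw [KaehlerDifferential.map_D, Ideal.Quotient.algebraMap_eq,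
      Ideal.Quotient.eq_zero_iff_mem.2 (Ideal.mem_span_singleton_self t), map_zero]
  have hnz := nzd_forms 𝒜 hd htd ht p hQ
  refine ⟨torsionFree_forms 𝒜 hd htd p hQ hnz, ?_⟩
  refine Van.of_quotient t d (Submodule.mkQ (Ideal.span {t} • ⊤ : Submodule A (⋀[A]^p Ω[A⁄k])))
    (ℳ'' := redDeg 𝒜 t p) hnz ?_ ?_ (form_mem_of_smul 𝒜 htd p hnz) ?_ ?_ ?_ ?_ ?_
  · intro m
    rw [Submodule.mkQ_apply, Submodule.Quotient.mk_eq_zero]
    exact Submodule.smul_mem_smul (Ideal.mem_span_singleton_self t) trivial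
  · intro m hm
    rw [Submodule.mkQ_apply, Submodule.Quotient.mk_eq_zero,
      Submodule.ideal_span_singleton_smul] at hm
    obtain ⟨m', -, hm'⟩ := hm
    exact ⟨m', hm'⟩
  · rintro n _ ⟨ω, hω, rfl⟩
    exact ⟨ω, hω, rfl⟩
  · intro n ω hω
    exact ⟨ω, hω, rfl⟩
  · intro i n ω hω
    exact smul_form_mem 𝒜 (hx i) hω
  · intro s
    obtain ⟨N, a, ha, ha'⟩ := exists_coeffs 𝒜 htd hx htx s
    refine ⟨N, a, ha, fun i n ω hω => ?_⟩
    rcases ha' i with h | ⟨j, hj, hj'⟩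
    · rw [h, zero_smul]; exact zero_mem _
    · have h1 := smul_form_mem 𝒜 hj hω
      rwa [show n + s * w i + j = n + N * d by omega] at h1
  · intro n hn
    exact van_quotient 𝒜 hd htd ht hx p (fun q hq => hTF q (hq.trans hp))
      (fun q hq => hV' q (hq.trans hp)) n hn

end

end Pool.Agent.H74.IA
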