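import Mathlib

/-!
# The internal grading of differential forms, coaction form

For a graded algebra `R` over `k` the exterior algebra `Λ` of the module of Kähler differentials has
a ring homomorphism `Φ : Λ → Λ[X]` with `Φ ω = ω X ^ n` for all forms `ω` of degree `n`.
-/

namespace Pool.Agent.H74.IA

open Polynomial

universe u v

variable {k : Type u} {R : Type v} [CommRing k] [CommRing R] [Algebra k R]

/-- exterior algebra of the Kähler differentials -/
abbrev Lam (k : Type u) (R : Type v) [CommRing k] [CommRing R] [Algebra k R] :=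
  ExteriorAlgebra R (Ω[R⁄k])

variable (𝒜 : ℕ → Submodule k R) [GradedAlgebra 𝒜]

/-- `r ↦ ∑ r_i X ^ i` -/
noncomputable def rho : R →+* (Lam k R)[X] :=
  (DirectSum.toSemiring (A := fun i => 𝒜 i) (R := (Lam k R)[X])
    (fun i => (((monomial i : Lam k R →ₗ[Lam k R] (Lam k R)[X]).toAddMonoidHom.comp
      (algebraMap R (Lam k R) : R →+ Lam k R)).comp (𝒜 i).subtype.toAddMonoidHom))
    (by
      change monomial 0 (algebraMap R (Lam k R) 1) = 1
      rw [map_one]; rfl)
    (by
      intro i j a b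
      change monomial (i + j) (algebraMap R (Lam k R) ((a : R) * (b : R))) =
        monomial i (algebraMap R (Lam k R) a) * monomial j (algebraMap R (Lam k R) b)
      rw [monomial_mul_monomial, map_mul])).comp
    (DirectSum.decomposeRingEquiv 𝒜 : R →+* DirectSum ℕ (fun i => 𝒜 i))

theorem rho_of_mem {i : ℕ} {r : R} (hr : r ∈ 𝒜 i) :
    rho 𝒜 r = monomial i (algebraMap R (Lam k R) r) := by
  unfold rho
  rw [RingHom.comp_apply]
  have : (DirectSum.decomposeRingEquiv 𝒜 : R →+* DirectSum ℕ (fun i => 𝒜 i)) r =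
      DirectSum.of (fun i => 𝒜 i) i ⟨r, hr⟩ := DirectSum.decompose_of_mem 𝒜 hr
  rw [this, DirectSum.toSemiring_of]
  rfl

theorem rho_commutes (r : R) (q : (Lam k R)[X]) : rho 𝒜 r * q = q * rho 𝒜 r := by
  induction r using DirectSum.Decomposition.inductionOn 𝒜 with
  | zero => rw [map_zero, zero_mul, mul_zero]
  | @homogeneous i m =>
    rw [rho_of_mem 𝒜 m.2, ← C_mul_X_pow_eq_monomial, mul_assoc, X_pow_mul, ← mul_assoc,
      ← mul_assoc]
    congr 1
    ext n
    rw [coeff_C_mul, coeff_mul_C, Algebra.commutes]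
  | add a b ha hb => rw [map_add, add_mul, mul_add, ha, hb]

/-- `Λ[X]` with the twisted structure of an `R`-algebra. -/
def Tw (_ : ℕ → Submodule k R) : Type _ := (Lam k R)[X]

noncomputable instance : Ring (Tw 𝒜) := inferInstanceAs (Ring (Lam k R)[X])

noncomputable instance : Algebra R (Tw 𝒜) :=
  (show R →+* Tw 𝒜 from rho 𝒜).toAlgebra' (rho_commutes 𝒜)

noncomputable instance : Algebra k (Tw 𝒜) :=
  ((show R →+* Tw 𝒜 from rho 𝒜).comp (algebraMap k R)).toAlgebra'
    (fun c q => rho_commutes 𝒜 (algebraMap k R c) q)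

instance : IsScalarTower k R (Tw 𝒜) := IsScalarTower.of_algebraMap_eq (fun _ => rfl)

theorem tw_smul_def (r : R) (q : Tw 𝒜) : r • q = (show Tw 𝒜 from rho 𝒜 r) * q :=
  Algebra.smul_def r q

/-- `r ↦ ∑ d(r_i) X ^ i` as additive map -/
noncomputable def del0 : R →+ Tw 𝒜 :=
  (DirectSum.toAddMonoid (β := fun i => 𝒜 i) (γ := Tw 𝒜)
    (fun i => ((((monomial i : Lam k R →ₗ[Lam k R] (Lam k R)[X]).toAddMonoidHom.comp
      (ExteriorAlgebra.ι R : Ω[R⁄k] →ₗ[R] Lam k R).toAddMonoidHom).comp
      (KaehlerDifferential.D k R : R →ₗ[k] Ω[R⁄k]).toAddMonoidHom).comp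
      (𝒜 i).subtype.toAddMonoidHom : 𝒜 i →+ (Lam k R)[X]))).comp
    (DirectSum.decomposeAddEquiv 𝒜 : R →+ DirectSum ℕ (fun i => 𝒜 i))

theorem del0_of_mem {i : ℕ} {r : R} (hr : r ∈ 𝒜 i) :
    del0 𝒜 r = (show Tw 𝒜 from monomial i (ExteriorAlgebra.ι R (KaehlerDifferential.D k R r))) := by
  unfold del0
  rw [AddMonoidHom.comp_apply]
  have : (DirectSum.decomposeAddEquiv 𝒜 : R →+ DirectSum ℕ (fun i => 𝒜 i)) r =
      DirectSum.of (fun i => 𝒜 i) i ⟨r, hr⟩ := DirectSum.decompose_of_mem 𝒜 hr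
  rw [this, DirectSum.toAddMonoid_of]
  rfl

theorem del0_mul (a b : R) : del0 𝒜 (a * b) = a • del0 𝒜 b + b • del0 𝒜 a := by
  induction a using DirectSum.Decomposition.inductionOn 𝒜 with
  | zero => rw [zero_mul, map_zero, zero_smul, smul_zero, add_zero]
  | @homogeneous i a =>
    induction b using DirectSum.Decomposition.inductionOn 𝒜 with
    | zero => rw [mul_zero, map_zero, zero_smul, smul_zero, add_zero]
    | @homogeneous j b =>
      rw [del0_of_mem 𝒜 (SetLike.mul_mem_graded a.2 b.2), del0_of_mem 𝒜 a.2, del0_of_mem 𝒜 b.2,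
        tw_smul_def, tw_smul_def, rho_of_mem 𝒜 a.2, rho_of_mem 𝒜 b.2]
      change (monomial (i + j) (ExteriorAlgebra.ι R (KaehlerDifferential.D k R ((a : R) * b))) :
        (Lam k R)[X]) = monomial i (algebraMap R (Lam k R) a) *
          monomial j (ExteriorAlgebra.ι R (KaehlerDifferential.D k R b)) +
          monomial j (algebraMap R (Lam k R) b) *
          monomial i (ExteriorAlgebra.ι R (KaehlerDifferential.D k R a))
      rw [monomial_mul_monomial, monomial_mul_monomial, add_comm j i, ← map_add,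
        Derivation.leibniz, map_add, map_smul, map_smul, Algebra.smul_def, Algebra.smul_def]
    | add b b' hb hb' =>
      rw [mul_add, map_add, map_add, hb, hb', smul_add, add_smul]
      abel
  | add a a' ha ha' =>
    rw [add_mul, map_add, map_add, ha, ha', smul_add, add_smul]
    abel

theorem del0_smul (c : k) (a : R) : del0 𝒜 (c • a) = c • del0 𝒜 a := by
  have h0 : algebraMap k R c ∈ 𝒜 0 := SetLike.algebraMap_mem_graded 𝒜 c
  have h1 : del0 𝒜 (algebraMap k R c) = 0 := by
    rw [del0_of_mem 𝒜 h0, Derivation.map_algebraMap, map_zero]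
    exact (monomial 0).map_zero
  rw [Algebra.smul_def, del0_mul, h1, smul_zero, add_zero, algebraMap_smul]

/-- `r ↦ ∑ d(r_i) X ^ i` as derivation -/
noncomputable def del : Derivation k R (Tw 𝒜) :=
  Derivation.mk' { del0 𝒜 with map_smul' := fun c a => del0_smul 𝒜 c a } (del0_mul 𝒜)

theorem del_apply (r : R) : del 𝒜 r = del0 𝒜 r := rfl

/-- the linear map `Ω → Λ[X]` -/
noncomputable def gee : Ω[R⁄k] →ₗ[R] Tw 𝒜 := (del 𝒜).liftKaehlerDifferential

theorem gee_D (r : R) : gee 𝒜 (KaehlerDifferential.D k R r) = del0 𝒜 r := by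
  unfold gee
  rw [Derivation.liftKaehlerDifferential_comp_D, del_apply]

/-- coefficients are one-forms -/
def OneCoeff (q : (Lam k R)[X]) : Prop := ∀ n, ∃ m : Ω[R⁄k], q.coeff n = ExteriorAlgebra.ι R m

theorem OneCoeff.add {q q' : (Lam k R)[X]} (h : OneCoeff q) (h' : OneCoeff q') :
    OneCoeff (q + q') := by
  intro n
  obtain ⟨m, hm⟩ := h n
  obtain ⟨m', hm'⟩ := h' n
  exact ⟨m + m', by rw [coeff_add, hm, hm', map_add]⟩

theorem OneCoeff.zero : OneCoeff (0 : (Lam k R)[X]) := fun n => ⟨0, by simp⟩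

theorem OneCoeff.monomial (i : ℕ) (m : Ω[R⁄k]) :
    OneCoeff (monomial i (ExteriorAlgebra.ι R m) : (Lam k R)[X]) := by
  intro n
  rw [coeff_monomial]
  by_cases h : i = n
  · rw [if_pos h]; exact ⟨m, rfl⟩
  · rw [if_neg h]; exact ⟨0, by simp⟩

theorem OneCoeff.rho_mul (r : R) {q : (Lam k R)[X]} (h : OneCoeff q) :
    OneCoeff (rho 𝒜 r * q) := by
  induction r using DirectSum.Decomposition.inductionOn 𝒜 with
  | zero => rw [map_zero, zero_mul]; exact OneCoeff.zero
  | @homogeneous i r =>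
    rw [rho_of_mem 𝒜 r.2]
    intro n
    rw [← C_mul_X_pow_eq_monomial, mul_assoc, coeff_C_mul, X_pow_mul, coeff_mul_X_pow']
    by_cases hn : i ≤ n
    · rw [if_pos hn]
      obtain ⟨m, hm⟩ := h (n - i)
      exact ⟨(r : R) • m, by rw [hm, map_smul, Algebra.smul_def]⟩
    · rw [if_neg hn]
      exact ⟨0, by simp⟩
  | add a b ha hb => rw [map_add, add_mul]; exact ha.add hb

theorem oneCoeff_del0 (r : R) : OneCoeff (show (Lam k R)[X] from del0 𝒜 r) := by
  induction r using DirectSum.Decomposition.inductionOn 𝒜 with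
  | zero => rw [map_zero]; exact OneCoeff.zero
  | @homogeneous i r => rw [del0_of_mem 𝒜 r.2]; exact OneCoeff.monomial _ _
  | add a b ha hb => rw [map_add]; exact ha.add hb

theorem oneCoeff_gee (m : Ω[R⁄k]) : OneCoeff (show (Lam k R)[X] from gee 𝒜 m) := by
  have hm : m ∈ Submodule.span R (Set.range (KaehlerDifferential.D k R)) := by
    rw [KaehlerDifferential.span_range_derivation]; trivial
  induction hm using Submodule.span_induction with
  | mem x hx =>
    obtain ⟨r, rfl⟩ := hx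
    rw [gee_D]
    exact oneCoeff_del0 𝒜 r
  | zero => rw [map_zero]; exact OneCoeff.zero
  | add x y _ _ hx hy => rw [map_add]; exact hx.add hy
  | smul a x _ hx => rw [map_smul, tw_smul_def]; exact hx.rho_mul 𝒜 a

theorem OneCoeff.sq {q : (Lam k R)[X]} (h : OneCoeff q) : q * q = 0 := by
  choose m hm using h
  ext n
  rw [coeff_mul, coeff_zero]
  refine Finset.sum_involution (fun p _ => (p.2, p.1)) ?_ ?_ ?_ ?_
  · intro p _
    simp only
    rw [hm, hm]
    exact ExteriorAlgebra.ι_add_mul_swap _ _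
  · intro p _ hp h
    apply hp
    have h1 : p.2 = p.1 := congrArg Prod.fst h
    rw [h1, hm, ExteriorAlgebra.ι_sq_zero]
  · intro p hp
    rw [Finset.HasAntidiagonal.mem_antidiagonal] at hp ⊢
    simp only
    omega
  · intro p _
    rfl

/-- the coaction -/
noncomputable def Phi : Lam k R →ₐ[R] Tw 𝒜 :=
  ExteriorAlgebra.lift R ⟨gee 𝒜, fun m => (oneCoeff_gee 𝒜 m).sq⟩

theorem Phi_ι (r : R) : Phi 𝒜 (ExteriorAlgebra.ι R (KaehlerDifferential.D k R r)) = del0 𝒜 r := by
  unfold Phi
  rw [ExteriorAlgebra.lift_ι_apply]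
  exact gee_D 𝒜 r

theorem ofFn_prod_monomial {A : Type*} [Semiring A] (p : ℕ) (e : Fin p → ℕ) (y : Fin p → A) :
    (List.ofFn fun j => (monomial (e j) (y j) : A[X])).prod =
      monomial (∑ j, e j) (List.ofFn y).prod := by
  induction p with
  | zero => simp
  | succ p ih =>
    rw [List.ofFn_succ, List.prod_cons, ih (fun j => e j.succ) (fun j => y j.succ),
      monomial_mul_monomial, Fin.sum_univ_succ, List.ofFn_succ, List.prod_cons]

theorem Phi_homogeneous (p : ℕ) (a : R) (b : Fin p → R) (i : ℕ) (e : Fin p → ℕ) (ha : a ∈ 𝒜 i)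
    (hb : ∀ j, b j ∈ 𝒜 (e j)) :
    Phi 𝒜 (a • ExteriorAlgebra.ιMulti R p (fun j => KaehlerDifferential.D k R (b j))) =
      (show Tw 𝒜 from monomial (i + ∑ j, e j)
        (a • ExteriorAlgebra.ιMulti R p (fun j => KaehlerDifferential.D k R (b j)))) := by
  rw [map_smul, ExteriorAlgebra.ιMulti_apply, map_list_prod, List.map_ofFn, tw_smul_def]
  have h1 : (⇑(Phi 𝒜) ∘ fun j => ExteriorAlgebra.ι R (KaehlerDifferential.D k R (b j))) =
      fun j => (show Tw 𝒜 from
        monomial (e j) (ExteriorAlgebra.ι R (KaehlerDifferential.D k R (b j)))) := by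
    funext j
    rw [Function.comp_apply, Phi_ι, del0_of_mem 𝒜 (hb j)]
  rw [h1, rho_of_mem 𝒜 ha]
  have h2 := ofFn_prod_monomial p e (fun j => ExteriorAlgebra.ι R (KaehlerDifferential.D k R (b j)))
  change monomial i (algebraMap R (Lam k R) a) * (List.ofFn fun j => (monomial (e j)
    (ExteriorAlgebra.ι R (KaehlerDifferential.D k R (b j))) : (Lam k R)[X])).prod = _
  rw [h2, monomial_mul_monomial, Algebra.smul_def]

end Pool.Agent.H74.IA
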