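import Pool.Agent.H74.IA.Grade
import Pool.Agent.H71.Local

/-!
# The conormal sequence for exterior powers, torsion-free case
-/

open scoped TensorProduct
open IsLocalRing

namespace Pool.Agent.H74.IA

open Pool.Agent.H71

universe u v

/-- No torsion outside the ideal `I`. -/
def TF {A : Type*} [CommRing A] (I : Ideal A) (W : Type*) [AddCommGroup W] [Module A W] : Prop :=
  ∀ a : A, a ∉ I → ∀ w : W, a • w = 0 → w = 0

section

variable {A : Type*} [CommRing A] (I : Ideal A) (t : A) (hI : I = Ideal.span {t})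
variable {M : Type*} [AddCommGroup M] [Module A M]
variable {N : Type*} [AddCommGroup N] [Module A N] [Module (A ⧸ I) N] [IsScalarTower A (A ⧸ I) N]

include hI in
theorem exists_psi [IsDomain (A ⧸ I)] (f : M →ₗ[A] N) (hf : Function.Surjective f) (e : M)
    (he : f e = 0)
    (hker : ∀ x, f x = 0 → ∃ (a : A) (z : M), x = a • e + t • z)
    (lam : Module.Dual (A ⧸ I) ((A ⧸ I) ⊗[A] M)) (hlam : lam (1 ⊗ₜ e) ≠ 0) (q : ℕ)
    (hN : TF I (⋀[A ⧸ I]^q N)) :
    ∃ ψ : ⋀[A ⧸ I]^q N →ₗ[A] (⋀[A]^(q + 1) M ⧸ (I • ⊤ : Submodule A (⋀[A]^(q + 1) M))),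
      (∀ x : ⋀[A]^q M, ψ (extMap (A ⧸ I) q f x) = Submodule.Quotient.mk (wedge e q x)) ∧
      (∀ y, redMap I (q + 1) f y = 0 → ∃ n, ψ n = y) ∧ Function.Injective ψ := by
  obtain ⟨ψ, hψ, hex⟩ := exists_conormal I t hI f hf e hker q
  refine ⟨ψ.restrictScalars A, hψ, hex, ?_⟩
  rw [injective_iff_map_eq_zero]
  intro y hy
  obtain ⟨x, rfl⟩ :=
    extMap_surjective (A := A) (B := A ⧸ I) Ideal.Quotient.mk_surjective q f hf y
  rw [LinearMap.coe_restrictScalars, hψ, Submodule.Quotient.mk_eq_zero] at hy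
  have h1 := extMap_eq_zero_of_mem I (q + 1) (TensorProduct.mk A (A ⧸ I) M 1) _ hy
  let g : (A ⧸ I) ⊗[A] M →ₗ[A ⧸ I] N := LinearMap.liftBaseChange (A ⧸ I) f
  have hg : (g.restrictScalars A) ∘ₗ (TensorProduct.mk A (A ⧸ I) M 1) = f := by
    ext m
    simp [g]
  have h2 := smul_extMap_eq_zero (A := A) (B := A ⧸ I) q (TensorProduct.mk A (A ⧸ I) M 1) g e
    (by
      have := LinearMap.congr_fun hg e
      rw [he] at this
      exact this) lam x h1
  rw [hg] at h2
  obtain ⟨s, hs⟩ := Ideal.Quotient.mk_surjective (lam (1 ⊗ₜ e))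
  have h3 : s ∉ I := by
    intro h
    apply hlam
    rw [← hs, Ideal.Quotient.eq_zero_iff_mem.2 h]
  apply hN s h3
  rw [← algebraMap_smul (A ⧸ I) s, Ideal.Quotient.algebraMap_eq, hs]
  exact h2

include hI in
theorem tf_quot [IsDomain (A ⧸ I)] (f : M →ₗ[A] N) (hf : Function.Surjective f) (e : M)
    (he : f e = 0)
    (hker : ∀ x, f x = 0 → ∃ (a : A) (z : M), x = a • e + t • z)
    (lam : Module.Dual (A ⧸ I) ((A ⧸ I) ⊗[A] M)) (hlam : lam (1 ⊗ₜ e) ≠ 0) (p : ℕ)
    (hN : ∀ q ≤ p, TF I (⋀[A ⧸ I]^q N)) :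
    TF I (⋀[A]^p M ⧸ (I • ⊤ : Submodule A (⋀[A]^p M))) := by
  intro a ha w hw
  have h1 : redMap I p f w = 0 := by
    apply hN p le_rfl a ha
    rw [← map_smul, hw, map_zero]
  rcases p with _ | q
  · exact redMap_zero_injective I f hf (by rw [h1, map_zero])
  · obtain ⟨ψ, -, hex, hinj⟩ := exists_psi I t hI f hf e he hker lam hlam q (hN q (Nat.le_succ q))
    obtain ⟨n, rfl⟩ := hex w h1
    have h2 : ψ (a • n) = 0 := by rw [map_smul, hw]
    have h3 : a • n = 0 := hinj (by rw [h2, map_zero])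
    rw [hN q (Nat.le_succ q) a ha n h3, map_zero]

end

section

variable {k : Type u} [Field k] {A : Type v} [CommRing A] [Algebra k A]

theorem exists_functional' [CharZero k] [IsDomain A] [IsNoetherianRing A]
    [Algebra.EssFiniteType k A] (t : A) (ht : t ≠ 0)
    [(Ideal.span {t}).IsPrime] [IsDomain (A ⧸ Ideal.span {t})] :
    ∃ lam : Module.Dual (A ⧸ Ideal.span {t}) ((A ⧸ Ideal.span {t}) ⊗[A] Ω[A⁄k]),
      lam (1 ⊗ₜ KaehlerDifferential.D k A t) ≠ 0 := by
  let q : Ideal A := Ideal.span {t}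
  have hsm : Algebra.FormallySmooth k (Localization.AtPrime q) :=
    formallySmooth_at_good' t ht ⊥ goodPrime_bot q (by
      rw [← RingHom.ker_eq_comap_bot, Ideal.mk_ker])
  let S := Localization.AtPrime q
  let κ := q.ResidueField
  have hess : Algebra.EssFiniteType A S := Algebra.EssFiniteType.of_isLocalization S q.primeCompl
  have hess' : Algebra.EssFiniteType k S := Algebra.EssFiniteType.comp k A S
  have hκ : Algebra.FormallySmooth k κ := formallySmooth_residueField S
  have hsurj : Function.Surjective (algebraMap S κ) := IsLocalRing.residue_surjective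
  obtain ⟨l, hl⟩ := (Algebra.FormallySmooth.iff_split_injection (R := k) (P := S) (A := κ)
    hsurj).1 hκ
  let t' : S := algebraMap A S t
  have : IsDomain S := IsLocalization.isDomain_localization q.primeCompl_le_nonZeroDivisors
  have ht' : t' ≠ 0 := by
    intro h
    exact ht ((IsLocalization.to_map_eq_zero_iff S q.primeCompl_le_nonZeroDivisors).1 h)
  have hker : RingHom.ker (algebraMap S κ) = Ideal.span {t'} := by
    have h1 : RingHom.ker (algebraMap S κ) = maximalIdeal S := IsLocalRing.ker_residue (R := S)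
    rw [h1, ← Localization.AtPrime.map_eq_maximalIdeal, Ideal.map_span, Set.image_singleton]
  have htker : t' ∈ RingHom.ker (algebraMap S κ) := by
    rw [hker]; exact Ideal.mem_span_singleton_self _
  have hv : (1 : κ) ⊗ₜ[S] KaehlerDifferential.D k S t' ≠ 0 := by
    intro h
    have h1 := LinearMap.congr_fun hl (Ideal.toCotangent _ ⟨t', htker⟩)
    rw [LinearMap.comp_apply, KaehlerDifferential.kerCotangentToTensor_toCotangent, h, map_zero,
      LinearMap.id_apply] at h1
    have h2 := (Ideal.toCotangent_eq_zero _ _).1 h1.symm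
    simp only at h2
    rw [hker, Ideal.span_singleton_pow, Ideal.mem_span_singleton] at h2
    obtain ⟨b, hb⟩ := h2
    have h3 : t' * (1 - t' * b) = 0 := by
      linear_combination hb
    rcases mul_eq_zero.1 h3 with h | h
    · exact ht' h
    · have h4 : t' ∈ maximalIdeal S := by
        rw [← IsLocalRing.ker_residue (R := S)]
        exact htker
      have h5 : IsUnit (1 - t' * b) := by
        have h6 := (IsLocalRing.isUnit_or_isUnit_one_sub_self (t' * b))
        rcases h6 with h6 | h6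
        · exact absurd (isUnit_of_mul_isUnit_left h6) ((mem_maximalIdeal _).1 h4)
        · exact h6
      rw [h] at h5
      exact not_isUnit_zero h5
  obtain ⟨φ, hφ⟩ : ∃ φ : Module.Dual κ (κ ⊗[S] Ω[S⁄k]),
      φ ((1 : κ) ⊗ₜ[S] KaehlerDifferential.D k S t') ≠ 0 := by
    by_contra hcon
    push Not at hcon
    exact hv ((Module.forall_dual_apply_eq_zero_iff κ _).1 hcon)
  let lam0 : Ω[A⁄k] →ₗ[A] κ := (φ.restrictScalars A) ∘ₗ
    ((TensorProduct.mk S κ (Ω[S⁄k]) 1).restrictScalars A) ∘ₗ (KaehlerDifferential.map k k A S)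
  let lam1 : (A ⧸ q) ⊗[A] Ω[A⁄k] →ₗ[A ⧸ q] κ := LinearMap.liftBaseChange (A ⧸ q) lam0
  have hfin : Module.FinitePresentation (A ⧸ q) ((A ⧸ q) ⊗[A] Ω[A⁄k]) :=
    Module.finitePresentation_of_finite _ _
  obtain ⟨lam, s, hlam⟩ := Module.FinitePresentation.exists_lift_of_isLocalizedModule
    (nonZeroDivisors (A ⧸ q)) (Algebra.linearMap (A ⧸ q) κ) lam1
  refine ⟨lam, fun h ↦ ?_⟩
  have h1 := LinearMap.congr_fun hlam (1 ⊗ₜ KaehlerDifferential.D k A t)
  rw [LinearMap.comp_apply] at h1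
  have h2 : lam1 (1 ⊗ₜ KaehlerDifferential.D k A t) =
      φ ((1 : κ) ⊗ₜ[S] KaehlerDifferential.D k S t') := by
    change LinearMap.liftBaseChange (A ⧸ q) lam0 (1 ⊗ₜ KaehlerDifferential.D k A t) = _
    rw [LinearMap.liftBaseChange_tmul, one_smul]
    change φ ((1 : κ) ⊗ₜ[S] (KaehlerDifferential.map k k A S (KaehlerDifferential.D k A t))) = _
    rw [KaehlerDifferential.map_D]
  have h3 : lam (1 ⊗ₜ KaehlerDifferential.D k A t) = 0 := h
  rw [h3, map_zero] at h1
  have h4 : (s : A ⧸ q) • lam1 (1 ⊗ₜ KaehlerDifferential.D k A t) = 0 := h1.symm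
  rw [h2, Algebra.smul_def, mul_eq_zero] at h4
  rcases h4 with h4 | h4
  · exact nonZeroDivisors.coe_ne_zero s
      ((IsFractionRing.to_map_eq_zero_iff (R := A ⧸ q) (K := κ)).1 h4)
  · exact hφ h4

end

end Pool.Agent.H74.IA
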